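import Pool.Agent.H78.SP.Cycles

/-!
# The bound for pairs of cycles
-/

open Finset MeasureTheory ProbabilityTheory

namespace Pool.Agent.H78.SP

variable {m n N : ℕ}

lemma xm_eq {n : ℕ} {k : ℝ} (hk : 0 < k) (hkn : k ≤ n) (r : ℕ) :
    xm n k r = (1 - k / n) * (0 : ℝ) ^ r + k / (2 * n) * ((-(1 / √k)) ^ r + (1 / √k) ^ r) := by
  have hn : (0 : ℝ) < n := lt_of_lt_of_le hk hkn
  unfold xm signWeight
  rw [Fintype.sum_eq_add_sum_compl (0 : SignType)]
  have hc : ({0}ᶜ : Finset SignType) = {-1, 1} := by decide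
  rw [hc, sum_pair (by decide)]
  have h0 : 0 ≤ 1 - k / n := by
    rw [sub_nonneg, div_le_one hn]
    exact hkn
  have h1 : 0 ≤ k / (2 * n) := by positivity
  simp [ENNReal.toReal_ofReal h0, ENNReal.toReal_ofReal h1, neg_div]
  ring

lemma xm_zero {n : ℕ} {k : ℝ} (hk : 0 < k) (hkn : k ≤ n) : xm n k 0 = 1 := by
  have hn : (0 : ℝ) < n := lt_of_lt_of_le hk hkn
  rw [xm_eq hk hkn]
  field_simp
  ring

lemma xm_two {n : ℕ} {k : ℝ} (hk : 0 < k) (hkn : k ≤ n) : xm n k 2 = 1 / n := by
  have hn : (0 : ℝ) < n := lt_of_lt_of_le hk hkn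
  rw [xm_eq hk hkn]
  have h1 : (1 / √k) ^ 2 = 1 / k := by
    rw [div_pow, Real.sq_sqrt hk.le, one_pow]
  rw [neg_sq, h1]
  field_simp
  ring

lemma xm_four {n : ℕ} {k : ℝ} (hk : 0 < k) (hkn : k ≤ n) : xm n k 4 = 1 / n * (1 / k) := by
  have hn : (0 : ℝ) < n := lt_of_lt_of_le hk hkn
  rw [xm_eq hk hkn]
  have h1 : (1 / √k) ^ 4 = 1 / k ^ 2 := by
    have : (1 / √k) ^ 4 = ((1 / √k) ^ 2) ^ 2 := by ring
    rw [this, div_pow, Real.sq_sqrt hk.le, one_pow, div_pow, one_pow]
  have h2 : (-(1 / √k)) ^ 4 = 1 / k ^ 2 := by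
    rw [← h1]
    ring
  rw [h1, h2]
  field_simp
  ring

variable {p p' : Cyc m n N} {A : Finset (Fin n × Fin N)}

lemma rr_cases (hA : A ⊆ edges p ∩ edges p') (v : Fin n) :
    (v ∉ rows p ∪ rows p' ∧ rr p p' A v = 0) ∨
    (v ∈ rows p ∪ rows p' ∧ v ∉ rows p ∩ rows p' ∧ rr p p' A v = 2) ∨
    (v ∈ rows p ∩ rows p' ∧ (rr p p' A v = 0 ∨ rr p p' A v = 2 ∨ rr p p' A v = 4)) := by
  have h := rr_add hA v
  have h1 := rdeg_A_left hA v
  have h2 := rdeg_A_right hA v
  by_cases hp : v ∈ rows p <;> by_cases hp' : v ∈ rows p'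
  · right; right
    rw [if_pos hp, if_pos hp'] at h
    refine ⟨mem_inter.mpr ⟨hp, hp'⟩, ?_⟩
    omega
  · right; left
    rw [if_pos hp, if_neg hp'] at h
    have := h2 hp'
    refine ⟨mem_union_left _ hp, fun hh => hp' (mem_inter.mp hh).2, by omega⟩
  · right; left
    rw [if_neg hp, if_pos hp'] at h
    have := h1 hp
    refine ⟨mem_union_right _ hp', fun hh => hp (mem_inter.mp hh).1, by omega⟩
  · left
    rw [if_neg hp, if_neg hp'] at h
    refine ⟨fun hh => ?_, by omega⟩
    rcases mem_union.mp hh with h3 | h3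
    · exact hp h3
    · exact hp' h3

lemma cc_cases (hA : A ⊆ edges p ∩ edges p') (v : Fin N) :
    (v ∉ cols p ∪ cols p' ∧ cc p p' A v = 0) ∨
    (v ∈ cols p ∪ cols p' ∧ v ∉ cols p ∩ cols p' ∧ cc p p' A v = 2) ∨
    (v ∈ cols p ∩ cols p' ∧ (cc p p' A v = 0 ∨ cc p p' A v = 2 ∨ cc p p' A v = 4)) := by
  have h := cc_add hA v
  have h1 := cdeg_A_left hA v
  have h2 := cdeg_A_right hA v
  by_cases hp : v ∈ cols p <;> by_cases hp' : v ∈ cols p'
  · right; right
    rw [if_pos hp, if_pos hp'] at h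
    refine ⟨mem_inter.mpr ⟨hp, hp'⟩, ?_⟩
    omega
  · right; left
    rw [if_pos hp, if_neg hp'] at h
    have := h2 hp'
    refine ⟨mem_union_left _ hp, fun hh => hp' (mem_inter.mp hh).2, by omega⟩
  · right; left
    rw [if_neg hp, if_pos hp'] at h
    have := h1 hp
    refine ⟨mem_union_right _ hp', fun hh => hp (mem_inter.mp hh).1, by omega⟩
  · left
    rw [if_neg hp, if_neg hp'] at h
    refine ⟨fun hh => ?_, by omega⟩
    rcases mem_union.mp hh with h3 | h3
    · exact hp h3
    · exact hp' h3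

/-- constants -/
noncomputable def MM : ℝ := max 1 (gm 4)

lemma one_le_MM : 1 ≤ MM := le_max_left _ _

lemma gm_bound (c : ℕ) (hc : c = 0 ∨ c = 2 ∨ c = 4) : 0 ≤ gm c ∧ gm c ≤ MM := by
  rcases hc with rfl | rfl | rfl
  · rw [gm_zero]; exact ⟨zero_le_one, one_le_MM⟩
  · rw [gm_two]; exact ⟨zero_le_one, one_le_MM⟩
  · exact ⟨gm_even_nonneg 2, le_max_right _ _⟩

lemma prod_gm_bound (hA : A ⊆ edges p ∩ edges p') :
    0 ≤ ∏ w, gm (cc p p' A w) ∧ ∏ w, gm (cc p p' A w) ≤ MM ^ (m + 2) := by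
  have h0 : ∀ w, 0 ≤ gm (cc p p' A w) := by
    intro w
    rcases cc_cases hA w with ⟨_, h⟩ | ⟨_, _, h⟩ | ⟨_, h⟩
    · exact (gm_bound _ (Or.inl h)).1
    · exact (gm_bound _ (Or.inr (Or.inl h))).1
    · exact (gm_bound _ h).1
  refine ⟨prod_nonneg fun w _ => h0 w, ?_⟩
  calc ∏ w, gm (cc p p' A w) ≤ ∏ w, (if w ∈ cols p then MM else 1) := by
        refine prod_le_prod (fun w _ => h0 w) fun w _ => ?_
        split_ifs with hw
        · rcases cc_cases hA w with ⟨_, h⟩ | ⟨_, _, h⟩ | ⟨_, h⟩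
          · exact (gm_bound _ (Or.inl h)).2
          · exact (gm_bound _ (Or.inr (Or.inl h))).2
          · exact (gm_bound _ h).2
        · rcases cc_cases hA w with ⟨_, h⟩ | ⟨_, _, h⟩ | ⟨h', _⟩
          · rw [h, gm_zero]
          · rw [h, gm_two]
          · exact absurd (mem_inter.mp h').1 hw
    _ = MM ^ (m + 2) := by
        rw [prod_ite_mem, univ_inter, prod_const, card_cols]

lemma xm_bound {k : ℝ} (hk : 1 ≤ k) (hkn : k ≤ n) (c : ℕ) (hc : c = 2 ∨ c = 4) :
    0 ≤ xm n k c ∧ xm n k c ≤ 1 / n := by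
  have hk0 : 0 < k := by linarith
  have hn : (0 : ℝ) < n := by linarith
  rcases hc with rfl | rfl
  · rw [xm_two hk0 hkn]
    exact ⟨by positivity, le_rfl⟩
  · rw [xm_four hk0 hkn]
    refine ⟨by positivity, ?_⟩
    have : 1 / k ≤ 1 := by
      rw [div_le_one hk0]
      exact hk
    have h2 : 0 ≤ 1 / (n : ℝ) := by positivity
    nlinarith

lemma prod_xm_nonneg {k : ℝ} (hk : 1 ≤ k) (hkn : k ≤ n) (hA : A ⊆ edges p ∩ edges p') :
    0 ≤ ∏ v, xm n k (rr p p' A v) := by
  refine prod_nonneg fun v _ => ?_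
  have hk0 : 0 < k := by linarith
  have h00 : xm n k 0 = 1 := xm_zero hk0 hkn
  rcases rr_cases hA v with ⟨_, h⟩ | ⟨_, _, h⟩ | ⟨_, h | h⟩
  · rw [h, h00]; exact zero_le_one
  · exact (xm_bound hk hkn _ (Or.inl h)).1
  · rw [h, h00]; exact zero_le_one
  · exact (xm_bound hk hkn _ h).1

lemma mem_zrows (v : Fin n) :
    v ∈ zrows p p' A ↔ v ∈ rows p ∩ rows p' ∧ rr p p' A v = 0 := by
  unfold zrows
  rw [mem_filter]

/-- general bound of the row product -/
lemma prod_xm_bound {k : ℝ} (hk : 1 ≤ k) (hkn : k ≤ n) (hA : A ⊆ edges p ∩ edges p') :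
    ∏ v, xm n k (rr p p' A v) ≤
      (1 / (n : ℝ)) ^ ((rows p ∪ rows p') \ zrows p p' A).card := by
  have hk0 : 0 < k := by linarith
  have hn : (0 : ℝ) < n := by linarith
  have h00 : xm n k 0 = 1 := xm_zero hk0 hkn
  calc ∏ v, xm n k (rr p p' A v)
      ≤ ∏ v, (if v ∈ (rows p ∪ rows p') \ zrows p p' A then 1 / (n : ℝ) else 1) := by
        refine prod_le_prod (fun v _ => ?_) fun v _ => ?_
        · rcases rr_cases hA v with ⟨_, h⟩ | ⟨_, _, h⟩ | ⟨_, h | h⟩
          · rw [h, h00]; exact zero_le_one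
          · exact (xm_bound hk hkn _ (Or.inl h)).1
          · rw [h, h00]; exact zero_le_one
          · exact (xm_bound hk hkn _ h).1
        · rcases rr_cases hA v with ⟨h', h⟩ | ⟨h', h'', h⟩ | ⟨h', h | h⟩
          · rw [if_neg (fun hh => h' (mem_sdiff.mp hh).1), h, h00]
          · rw [if_pos (mem_sdiff.mpr ⟨h', fun hh => h'' ((mem_zrows v).mp hh).1⟩)]
            exact (xm_bound hk hkn _ (Or.inl h)).2
          · rw [if_neg (fun hh => (mem_sdiff.mp hh).2 ((mem_zrows v).mpr ⟨h', h⟩)), h, h00]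
          · rw [if_pos (mem_sdiff.mpr ⟨mem_union_left _ (mem_inter.mp h').1, fun hh => ?_⟩)]
            · exact (xm_bound hk hkn _ h).2
            · have := ((mem_zrows v).mp hh).2
              omega
    _ = (1 / (n : ℝ)) ^ ((rows p ∪ rows p') \ zrows p p' A).card := by
        rw [prod_ite_mem, univ_inter, prod_const]

lemma card_union_zrows :
    ((rows p ∪ rows p') \ zrows p p' A).card + (rows p ∩ rows p').card +
      (zrows p p' A).card = 2 * (m + 2) := by
  have h1 : zrows p p' A ⊆ rows p ∪ rows p' :=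
    (filter_subset _ _).trans (inter_subset_left.trans subset_union_left)
  have h2 := card_sdiff_add_card_eq_card h1
  have h3 := card_union_add_card_inter (rows p) (rows p')
  rw [card_rows, card_rows] at h3
  omega

/-- exact value of the row product when `A` is empty -/
lemma prod_xm_empty {k : ℝ} (hk : 1 ≤ k) (hkn : k ≤ n) :
    ∏ v, xm n k (rr p p' ∅ v) =
      (1 / (n : ℝ)) ^ (rows p ∪ rows p').card * (1 / k) ^ (rows p ∩ rows p').card := by
  have hk0 : 0 < k := by linarith
  have h00 : xm n k 0 = 1 := xm_zero hk0 hkn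
  have hv : ∀ v, xm n k (rr p p' ∅ v) =
      (if v ∈ rows p ∪ rows p' then 1 / (n : ℝ) else 1) *
        (if v ∈ rows p ∩ rows p' then 1 / k else 1) := by
    intro v
    have h := rr_add (p := p) (p' := p') (A := ∅) (empty_subset _) v
    have hr : rdeg (∅ : Finset (Fin n × Fin N)) v = 0 := by simp [rdeg]
    rw [hr] at h
    by_cases hp : v ∈ rows p <;> by_cases hp' : v ∈ rows p' <;>
      simp only [hp, hp', if_true, if_false, mem_union, mem_inter, and_true,
        and_false, or_true, true_or, or_self, mul_one] at h ⊢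
    · have : rr p p' ∅ v = 4 := by omega
      rw [this, xm_four hk0 hkn]
    · have : rr p p' ∅ v = 2 := by omega
      rw [this, xm_two hk0 hkn]
    · have : rr p p' ∅ v = 2 := by omega
      rw [this, xm_two hk0 hkn]
    · have : rr p p' ∅ v = 0 := by omega
      rw [this, h00]
  simp_rw [hv]
  rw [prod_mul_distrib, prod_ite_mem, prod_ite_mem, univ_inter, univ_inter, prod_const,
    prod_const]

/-- the term of `A` in the pair moment -/
noncomputable def term (β k : ℝ) (p p' : Cyc m n N) (A : Finset (Fin n × Fin N)) : ℝ :=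
  √β ^ ((edges p \ A).card + (edges p' \ A).card) *
    (∏ v, xm n k (rr p p' A v)) * ∏ w, gm (cc p p' A w)

/-- the constant -/
noncomputable def KK (β : ℝ) (m : ℕ) : ℝ := (max 1 √β) ^ (4 * (m + 2)) * MM ^ (m + 2)

lemma KK_nonneg (β : ℝ) (m : ℕ) : 0 ≤ KK β m := by
  unfold KK
  have : 0 ≤ MM := zero_le_one.trans one_le_MM
  positivity

/-- the overlap weight -/
noncomputable def ov (p p' : Cyc m n N) : ℝ :=
  (n : ℝ) ^ (rows p ∩ rows p').card * (n : ℝ) ^ (cols p ∩ cols p').card

lemma term_self {β k : ℝ} (hk : 1 ≤ k) (hkn : k ≤ n) (h : A = edges p) (h' : A = edges p') :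
    term β k p p' A = 1 := by
  have hk0 : 0 < k := by linarith
  have hr : ∀ v, rr p p' A v = 0 := by
    intro v
    unfold rr
    rw [← h, ← h']
    simp [rdeg]
  have hc : ∀ v, cc p p' A v = 0 := by
    intro v
    unfold cc
    rw [← h, ← h']
    simp [cdeg]
  unfold term
  simp_rw [hr, hc, xm_zero hk0 hkn, gm_zero]
  rw [← h, ← h']
  simp

lemma sqrt_pow_bound (β : ℝ) :
    √β ^ ((edges p \ A).card + (edges p' \ A).card) ≤ (max 1 √β) ^ (4 * (m + 2)) := by
  have h1 : (edges p \ A).card ≤ 2 * (m + 2) := (card_le_card sdiff_subset).trans (card_edges p).le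
  have h2 : (edges p' \ A).card ≤ 2 * (m + 2) :=
    (card_le_card sdiff_subset).trans (card_edges p').le
  calc √β ^ ((edges p \ A).card + (edges p' \ A).card)
      ≤ (max 1 √β) ^ ((edges p \ A).card + (edges p' \ A).card) :=
        pow_le_pow_left₀ (Real.sqrt_nonneg _) (le_max_right _ _) _
    _ ≤ (max 1 √β) ^ (4 * (m + 2)) := pow_le_pow_right₀ (le_max_left _ _) (by omega)

lemma term_bound {β k : ℝ} (hβ : 0 ≤ β) (hk : 1 ≤ k) (hkn : k ≤ n)
    (hA : A ⊆ edges p ∩ edges p') :
    term β k p p' A ≤ KK β m * ov p p' / ((n : ℝ) ^ (2 * (m + 2)) * k) +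
      (if A = edges p ∧ A = edges p' then 1 else 0) +
      (if A = ∅ then (β / n) ^ (2 * (m + 2)) else 0) := by
  have hk0 : 0 < k := by linarith
  have hn : (0 : ℝ) < n := by linarith
  have hn1 : (1 : ℝ) ≤ n := hk.trans hkn
  have hMM : 0 ≤ MM := zero_le_one.trans one_le_MM
  have hov : 0 ≤ ov p p' := by unfold ov; positivity
  have hmain0 : 0 ≤ KK β m * ov p p' / ((n : ℝ) ^ (2 * (m + 2)) * k) := by
    have := KK_nonneg β m
    positivity
  have h2 : 0 ≤ (if A = edges p ∧ A = edges p' then (1 : ℝ) else 0) := by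
    split_ifs <;> norm_num
  have h3 : 0 ≤ (if A = ∅ then (β / n : ℝ) ^ (2 * (m + 2)) else 0) := by
    split_ifs
    · positivity
    · exact le_rfl
  obtain ⟨hg0, hg1⟩ := prod_gm_bound hA
  have hx0 := prod_xm_nonneg hk hkn hA
  have hs := sqrt_pow_bound (p := p) (p' := p') (A := A) β
  have hs0 : 0 ≤ √β ^ ((edges p \ A).card + (edges p' \ A).card) := by positivity
  -- a general way to conclude
  have concl : ∀ X : ℝ, ∏ v, xm n k (rr p p' A v) ≤ X → 0 ≤ X →
      X ≤ ov p p' / ((n : ℝ) ^ (2 * (m + 2)) * k) →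
      term β k p p' A ≤ KK β m * ov p p' / ((n : ℝ) ^ (2 * (m + 2)) * k) := by
    intro X h1 hX0 hX
    unfold term KK
    calc √β ^ ((edges p \ A).card + (edges p' \ A).card) * (∏ v, xm n k (rr p p' A v)) *
          ∏ w, gm (cc p p' A w)
        ≤ (max 1 √β) ^ (4 * (m + 2)) * X * MM ^ (m + 2) := by
          apply mul_le_mul (mul_le_mul hs h1 hx0 (by positivity)) hg1 hg0 (by positivity)
      _ = (max 1 √β) ^ (4 * (m + 2)) * MM ^ (m + 2) * X := by ring
      _ ≤ (max 1 √β) ^ (4 * (m + 2)) * MM ^ (m + 2) *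
            (ov p p' / ((n : ℝ) ^ (2 * (m + 2)) * k)) := by
          apply mul_le_mul_of_nonneg_left hX (by positivity)
      _ = _ := by ring
  have hcard := card_union_zrows (p := p) (p' := p') (A := A)
  rcases trichotomy hA with ⟨e1, e2⟩ | hlt | ⟨hb, hAe⟩
  · rw [term_self hk hkn e1 e2, if_pos ⟨e1, e2⟩]
    linarith
  · have := concl _ (prod_xm_bound hk hkn hA) (by positivity) (by
      rw [le_div_iff₀ (by positivity)]
      unfold ov
      set a := (rows p ∩ rows p').card
      set b := (cols p ∩ cols p').card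
      set z := (zrows p p' A).card
      set c := ((rows p ∪ rows p') \ zrows p p' A).card
      -- c + a + z = 2 (m+2), z < b
      have e : (n : ℝ) ^ (2 * (m + 2)) = (n : ℝ) ^ c * (n : ℝ) ^ (a + z) := by
        rw [← pow_add]
        congr 1
        omega
      rw [e, one_div, inv_pow]
      have hc0 : (n : ℝ) ^ c ≠ 0 := by positivity
      have e' : ((n : ℝ) ^ c)⁻¹ * ((n : ℝ) ^ c * (n : ℝ) ^ (a + z) * k) =
          (n : ℝ) ^ (a + z) * k := by
        field_simp
      rw [e']
      calc (n : ℝ) ^ (a + z) * k ≤ (n : ℝ) ^ (a + z) * n := by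
            apply mul_le_mul_of_nonneg_left hkn (by positivity)
        _ = (n : ℝ) ^ (a + z + 1) := by ring
        _ ≤ (n : ℝ) ^ (a + b) := pow_le_pow_right₀ hn1 (by omega)
        _ = _ := by rw [pow_add])
    linarith
  · subst hAe
    rcases Nat.eq_zero_or_pos (rows p ∩ rows p').card with ha | ha
    · rw [if_pos rfl]
      have hterm : term β k p p' ∅ = (β / n) ^ (2 * (m + 2)) := by
        unfold term
        rw [prod_xm_empty hk hkn, ha]
        have hu := card_union_add_card_inter (rows p) (rows p')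
        rw [ha, card_rows, card_rows] at hu
        have hu' : (rows p ∪ rows p').card = 2 * (m + 2) := by omega
        have hg : ∏ w, gm (cc p p' ∅ w) = 1 := by
          refine prod_eq_one fun w _ => ?_
          rcases cc_cases (p := p) (p' := p') hA w with ⟨_, h⟩ | ⟨_, _, h⟩ | ⟨h', _⟩
          · rw [h, gm_zero]
          · rw [h, gm_two]
          · rw [card_eq_zero] at hb
            rw [hb] at h'
            exact absurd h' (notMem_empty _)
        rw [hg, hu', sdiff_empty, sdiff_empty, card_edges, card_edges, pow_zero, mul_one,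
          mul_one, div_pow, div_pow, one_pow]
        have : √β ^ (2 * (m + 2) + 2 * (m + 2)) = β ^ (2 * (m + 2)) := by
          have e : 2 * (m + 2) + 2 * (m + 2) = 2 * (2 * (m + 2)) := by ring
          rw [e, pow_mul, Real.sq_sqrt hβ]
        rw [this]
        ring
      rw [hterm]
      linarith
    · have := concl _ (prod_xm_empty hk hkn).le (by positivity) (by
        rw [le_div_iff₀ (by positivity)]
        unfold ov
        rw [hb]
        set a := (rows p ∩ rows p').card
        set c := (rows p ∪ rows p').card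
        have hu : c + a = 2 * (m + 2) := by
          have hu := card_union_add_card_inter (rows p) (rows p')
          rw [card_rows, card_rows] at hu
          omega
        have e : (n : ℝ) ^ (2 * (m + 2)) = (n : ℝ) ^ c * (n : ℝ) ^ a := by
          rw [← pow_add, hu]
        rw [e, one_div, inv_pow, one_div, inv_pow, pow_zero, mul_one]
        have hc0 : (n : ℝ) ^ c ≠ 0 := by positivity
        have hk0' : k ^ a ≠ 0 := by positivity
        have e' : ((n : ℝ) ^ c)⁻¹ * (k ^ a)⁻¹ * ((n : ℝ) ^ c * (n : ℝ) ^ a * k) =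
            (n : ℝ) ^ a * (k / k ^ a) := by
          field_simp
        rw [e']
        have h4 : k / k ^ a ≤ 1 := by
          rw [div_le_one (by positivity)]
          exact le_self_pow₀ hk ha.ne'
        have h5 : 0 ≤ (n : ℝ) ^ a := by positivity
        nlinarith)
      linarith

end Pool.Agent.H78.SP
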