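import Pool.Agent.H78.SP.Defs

/-!
# The Gaussian column law as a sum of independent Gaussians
-/

open MeasureTheory ProbabilityTheory Filter Topology Asymptotics Matrix

namespace Pool.Agent.H78.SP

variable {n : ℕ}

lemma posSemidef_cov {β : ℝ} (hβ : 0 ≤ β) (x : Fin n → ℝ) :
    (1 + β • Matrix.vecMulVec x x : Matrix (Fin n) (Fin n) ℝ).PosSemidef := by
  have h1 : (1 : Matrix (Fin n) (Fin n) ℝ).PosSemidef := Matrix.PosSemidef.one
  have h2 : (Matrix.vecMulVec x x).PosSemidef := by
    have := Matrix.posSemidef_vecMulVec_self_star x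
    simpa using this
  exact h1.add (h2.smul hβ)

/-- the standard one-dimensional Gaussian -/
noncomputable abbrev g1 : Measure ℝ := gaussianReal 0 1

lemma mvg_eq {β : ℝ} (hβ : 0 ≤ β) (x : Fin n → ℝ) :
    multivariateGaussian 0 (1 + β • Matrix.vecMulVec x x) =
      ((Measure.pi fun _ : Fin n => g1).prod g1).map
        (fun p => WithLp.toLp 2 (fun i => p.1 i + √β * x i * p.2)) := by
  have hmeas : Measurable (fun p : (Fin n → ℝ) × ℝ =>
      (WithLp.toLp 2 (fun i => p.1 i + √β * x i * p.2) : EuclideanSpace ℝ (Fin n))) := by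
    fun_prop
  have : IsProbabilityMeasure (((Measure.pi fun _ : Fin n => g1).prod g1).map
        (fun p : (Fin n → ℝ) × ℝ =>
          (WithLp.toLp 2 (fun i => p.1 i + √β * x i * p.2) : EuclideanSpace ℝ (Fin n)))) :=
    Measure.isProbabilityMeasure_map hmeas.aemeasurable
  apply Measure.ext_of_charFun
  ext t
  rw [charFun_multivariateGaussian (posSemidef_cov hβ x), charFun_apply,
    integral_map hmeas.aemeasurable (by fun_prop)]
  have e1 : ∀ p : (Fin n → ℝ) × ℝ,
      Complex.exp (((inner ℝ (WithLp.toLp 2 (fun i => p.1 i + √β * x i * p.2) :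
        EuclideanSpace ℝ (Fin n)) t : ℝ) : ℂ) * Complex.I) =
      (∏ i, Complex.exp (((t i : ℝ) : ℂ) * ((p.1 i : ℝ) : ℂ) * Complex.I)) *
        Complex.exp (((√β * ∑ i, x i * t i : ℝ) : ℂ) * (p.2 : ℂ) * Complex.I) := by
    intro p
    rw [← Complex.exp_sum, ← Complex.exp_add]
    congr 1
    rw [PiLp.inner_apply]
    push_cast
    rw [Finset.sum_mul, Finset.mul_sum, Finset.sum_mul, Finset.sum_mul,
      ← Finset.sum_add_distrib]
    refine Finset.sum_congr rfl fun i _ => ?_
    simp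
    ring
  simp_rw [e1]
  rw [integral_prod_mul (f := fun a : Fin n → ℝ =>
    ∏ i, Complex.exp (((t i : ℝ) : ℂ) * ((a i : ℝ) : ℂ) * Complex.I))
    (g := fun b : ℝ => Complex.exp (((√β * ∑ i, x i * t i : ℝ) : ℂ) * (b : ℂ) * Complex.I))]
  rw [integral_fintype_prod_eq_prod (f := fun (i : Fin n) (y : ℝ) =>
    Complex.exp (((t i : ℝ) : ℂ) * (y : ℂ) * Complex.I))]
  have e2 : ∀ s : ℝ, ∫ y : ℝ, Complex.exp ((s : ℂ) * (y : ℂ) * Complex.I) ∂g1 =
      Complex.exp (-((s : ℂ) ^ 2) / 2) := by
    intro s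
    have := charFun_gaussianReal (μ := 0) (v := 1) s
    rw [charFun_apply_real] at this
    rw [this]
    congr 1
    simp
    ring
  simp_rw [e2]
  rw [← Complex.exp_sum, ← Complex.exp_add]
  congr 1
  simp only [inner_zero_right, Complex.ofReal_zero, zero_mul, zero_sub]
  have e3 : (t ⬝ᵥ (1 + β • Matrix.vecMulVec x x) *ᵥ t : ℝ) =
      ∑ i, (t i) ^ 2 + (√β * ∑ i, x i * t i) ^ 2 := by
    rw [Matrix.add_mulVec, Matrix.one_mulVec, dotProduct_add, Matrix.smul_mulVec,
      Matrix.vecMulVec_mulVec, mul_pow, Real.sq_sqrt hβ]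
    simp only [dotProduct, Pi.smul_apply, smul_eq_mul]
    congr 1
    · exact Finset.sum_congr rfl fun i _ => by ring
    · rw [pow_two, Finset.sum_mul_sum, Finset.mul_sum]
      refine Finset.sum_congr rfl fun i _ => ?_
      simp only [MulOpposite.smul_eq_mul_unop, MulOpposite.unop_op, Finset.mul_sum]
      refine Finset.sum_congr rfl fun j _ => ?_
      ring
  rw [e3]
  push_cast
  rw [← Finset.sum_div]
  simp only [Finset.sum_neg_distrib]
  ring

end Pool.Agent.H78.SP
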