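import Pool.Agent.H78.SP.Pairs

/-!
# Cycles in the complete bipartite graph
-/

open Finset Fin.NatCast

namespace Pool.Agent.H78.SP

variable {m n N : ℕ}

/-- a cycle of length `2(m+2)`: its rows and its columns -/
abbrev Cyc (m n N : ℕ) := (Fin (m + 2) ↪ Fin n) × (Fin (m + 2) ↪ Fin N)

/-- its edges -/
def edges (p : Cyc m n N) : Finset (Fin n × Fin N) :=
  (univ : Finset (Fin (m + 2))).image (fun t => (p.1 t, p.2 t)) ∪
    (univ : Finset (Fin (m + 2))).image (fun t => (p.1 (t + 1), p.2 t))

lemma add_one_ne (t : Fin (m + 2)) : t + 1 ≠ t := by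
  intro h
  have : (1 : Fin (m + 2)) = 0 := by
    have := add_eq_left.mp h
    exact this
  exact absurd this (by simp)

lemma mem_edges (p : Cyc m n N) (v : Fin n) (w : Fin N) :
    (v, w) ∈ edges p ↔ ∃ t, w = p.2 t ∧ (v = p.1 t ∨ v = p.1 (t + 1)) := by
  unfold edges
  simp only [mem_union, mem_image, mem_univ, true_and, Prod.mk.injEq]
  constructor
  · rintro (⟨t, h1, h2⟩ | ⟨t, h1, h2⟩)
    · exact ⟨t, h2.symm, Or.inl h1.symm⟩
    · exact ⟨t, h2.symm, Or.inr h1.symm⟩
  · rintro ⟨t, h2, h1 | h1⟩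
    · exact Or.inl ⟨t, h1.symm, h2.symm⟩
    · exact Or.inr ⟨t, h1.symm, h2.symm⟩

lemma mem_row (p : Cyc m n N) (t : Fin (m + 2)) (w : Fin N) :
    (p.1 t, w) ∈ edges p ↔ w = p.2 t ∨ w = p.2 (t - 1) := by
  rw [mem_edges]
  constructor
  · rintro ⟨s, h1, h2 | h2⟩
    · rw [p.1.injective h2]
      exact Or.inl h1
    · have := p.1.injective h2
      rw [this, add_sub_cancel_right]
      exact Or.inr h1
  · rintro (h | h)
    · exact ⟨t, h, Or.inl rfl⟩
    · exact ⟨t - 1, h, Or.inr (by rw [sub_add_cancel])⟩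

lemma mem_col (p : Cyc m n N) (t : Fin (m + 2)) (v : Fin n) :
    (v, p.2 t) ∈ edges p ↔ v = p.1 t ∨ v = p.1 (t + 1) := by
  rw [mem_edges]
  constructor
  · rintro ⟨s, h1, h2⟩
    rw [p.2.injective h1]
    exact h2
  · intro h
    exact ⟨t, rfl, h⟩

lemma sub_one_ne (t : Fin (m + 2)) : t - 1 ≠ t := by
  intro h
  have := add_one_ne (t - 1)
  rw [sub_add_cancel] at this
  exact this h.symm

lemma row_filter (p : Cyc m n N) (t : Fin (m + 2)) :
    (edges p).filter (fun e => e.1 = p.1 t) = {(p.1 t, p.2 t), (p.1 t, p.2 (t - 1))} := by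
  ext ⟨v, w⟩
  simp only [mem_filter, mem_insert, mem_singleton, Prod.mk.injEq]
  constructor
  · rintro ⟨h1, h2⟩
    subst h2
    rw [mem_row] at h1
    tauto
  · rintro (⟨h1, h2⟩ | ⟨h1, h2⟩)
    · subst h1 h2
      exact ⟨(mem_row p t _).mpr (Or.inl rfl), rfl⟩
    · subst h1 h2
      exact ⟨(mem_row p t _).mpr (Or.inr rfl), rfl⟩

lemma col_filter (p : Cyc m n N) (t : Fin (m + 2)) :
    (edges p).filter (fun e => e.2 = p.2 t) = {(p.1 t, p.2 t), (p.1 (t + 1), p.2 t)} := by
  ext ⟨v, w⟩
  simp only [mem_filter, mem_insert, mem_singleton, Prod.mk.injEq]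
  constructor
  · rintro ⟨h1, h2⟩
    subst h2
    rw [mem_col] at h1
    tauto
  · rintro (⟨h1, h2⟩ | ⟨h1, h2⟩)
    · subst h1 h2
      exact ⟨(mem_col p t _).mpr (Or.inl rfl), rfl⟩
    · subst h1 h2
      exact ⟨(mem_col p t _).mpr (Or.inr rfl), rfl⟩

lemma row_ne (p : Cyc m n N) (t : Fin (m + 2)) :
    ((p.1 t, p.2 t) : Fin n × Fin N) ≠ (p.1 t, p.2 (t - 1)) := by
  intro h
  have := p.2.injective (Prod.mk.inj h).2
  exact sub_one_ne t this.symm

lemma col_ne (p : Cyc m n N) (t : Fin (m + 2)) :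
    ((p.1 t, p.2 t) : Fin n × Fin N) ≠ (p.1 (t + 1), p.2 t) := by
  intro h
  have := p.1.injective (Prod.mk.inj h).1
  exact add_one_ne t this.symm

/-- the rows of a cycle -/
def rows (p : Cyc m n N) : Finset (Fin n) := univ.map p.1

/-- the columns of a cycle -/
def cols (p : Cyc m n N) : Finset (Fin N) := univ.map p.2

lemma card_rows (p : Cyc m n N) : (rows p).card = m + 2 := by simp [rows]

lemma card_cols (p : Cyc m n N) : (cols p).card = m + 2 := by simp [cols]

lemma mem_rows (p : Cyc m n N) (v : Fin n) : v ∈ rows p ↔ ∃ t, p.1 t = v := by simp [rows]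

lemma mem_cols (p : Cyc m n N) (w : Fin N) : w ∈ cols p ↔ ∃ t, p.2 t = w := by simp [cols]

lemma edge_row (p : Cyc m n N) {e : Fin n × Fin N} (he : e ∈ edges p) : e.1 ∈ rows p := by
  obtain ⟨v, w⟩ := e
  rw [mem_edges] at he
  obtain ⟨t, _, h | h⟩ := he
  · exact (mem_rows p v).mpr ⟨t, h.symm⟩
  · exact (mem_rows p v).mpr ⟨t + 1, h.symm⟩

lemma edge_col (p : Cyc m n N) {e : Fin n × Fin N} (he : e ∈ edges p) : e.2 ∈ cols p := by
  obtain ⟨v, w⟩ := e
  rw [mem_edges] at he
  obtain ⟨t, h, _⟩ := he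
  exact (mem_cols p w).mpr ⟨t, h.symm⟩

lemma rdeg_edges (p : Cyc m n N) (v : Fin n) :
    rdeg (edges p) v = if v ∈ rows p then 2 else 0 := by
  split_ifs with h
  · obtain ⟨t, rfl⟩ := (mem_rows p v).mp h
    unfold rdeg
    rw [row_filter, card_pair (row_ne p t)]
  · unfold rdeg
    rw [card_eq_zero, filter_eq_empty_iff]
    intro e he hv
    exact h (hv ▸ edge_row p he)

lemma cdeg_edges (p : Cyc m n N) (w : Fin N) :
    cdeg (edges p) w = if w ∈ cols p then 2 else 0 := by
  split_ifs with h
  · obtain ⟨t, rfl⟩ := (mem_cols p w).mp h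
    unfold cdeg
    rw [col_filter, card_pair (col_ne p t)]
  · unfold cdeg
    rw [card_eq_zero, filter_eq_empty_iff]
    intro e he hv
    exact h (hv ▸ edge_col p he)

lemma card_edges (p : Cyc m n N) : (edges p).card = 2 * (m + 2) := by
  have h1 : (edges p).card = ∑ v ∈ rows p, rdeg (edges p) v :=
    card_eq_sum_card_fiberwise (f := fun e => e.1) (fun e he => edge_row p he)
  rw [h1, sum_congr rfl (fun v hv => by rw [rdeg_edges, if_pos hv]), sum_const, card_rows]
  simp [mul_comm]

lemma rdeg_sdiff {E A : Finset (Fin n × Fin N)} (h : A ⊆ E) (v : Fin n) :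
    rdeg (E \ A) v + rdeg A v = rdeg E v := by
  unfold rdeg
  rw [← card_union_of_disjoint, ← filter_union, sdiff_union_of_subset h]
  exact disjoint_filter_filter sdiff_disjoint

lemma cdeg_sdiff {E A : Finset (Fin n × Fin N)} (h : A ⊆ E) (v : Fin N) :
    cdeg (E \ A) v + cdeg A v = cdeg E v := by
  unfold cdeg
  rw [← card_union_of_disjoint, ← filter_union, sdiff_union_of_subset h]
  exact disjoint_filter_filter sdiff_disjoint

lemma rdeg_mono {E A : Finset (Fin n × Fin N)} (h : A ⊆ E) (v : Fin n) :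
    rdeg A v ≤ rdeg E v := by
  have := rdeg_sdiff h v
  omega

lemma cdeg_mono {E A : Finset (Fin n × Fin N)} (h : A ⊆ E) (v : Fin N) :
    cdeg A v ≤ cdeg E v := by
  have := cdeg_sdiff h v
  omega

/-- a nonempty set of positions closed under predecessor is everything -/
lemma all_of_closed (S : Finset (Fin (m + 2))) (hS : S.Nonempty)
    (hc : ∀ t ∈ S, t - 1 ∈ S) : S = univ := by
  obtain ⟨t, ht⟩ := hS
  have key : ∀ k : ℕ, t - (k : Fin (m + 2)) ∈ S := by
    intro k
    induction k with
    | zero => simpa using ht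
    | succ k ih =>
      have := hc _ ih
      rw [sub_sub] at this
      simpa using this
  rw [eq_univ_iff_forall]
  intro s
  have := key (t - s).val
  simpa using this

variable (p p' : Cyc m n N) (A : Finset (Fin n × Fin N))

/-- the row exponent -/
def rr (v : Fin n) : ℕ := rdeg (edges p \ A) v + rdeg (edges p' \ A) v

/-- the column exponent -/
def cc (w : Fin N) : ℕ := cdeg (edges p \ A) w + cdeg (edges p' \ A) w

/-- common rows with exponent zero -/
def zrows : Finset (Fin n) := (rows p ∩ rows p').filter (fun v => rr p p' A v = 0)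

variable {p p' A}

lemma rr_add (hA : A ⊆ edges p ∩ edges p') (v : Fin n) :
    rr p p' A v + 2 * rdeg A v =
      (if v ∈ rows p then 2 else 0) + (if v ∈ rows p' then 2 else 0) := by
  have h1 := rdeg_sdiff (hA.trans inter_subset_left) v
  have h2 := rdeg_sdiff (hA.trans inter_subset_right) v
  rw [rdeg_edges] at h1 h2
  unfold rr
  omega

lemma cc_add (hA : A ⊆ edges p ∩ edges p') (v : Fin N) :
    cc p p' A v + 2 * cdeg A v =
      (if v ∈ cols p then 2 else 0) + (if v ∈ cols p' then 2 else 0) := by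
  have h1 := cdeg_sdiff (hA.trans inter_subset_left) v
  have h2 := cdeg_sdiff (hA.trans inter_subset_right) v
  rw [cdeg_edges] at h1 h2
  unfold cc
  omega

lemma rdeg_A_left (hA : A ⊆ edges p ∩ edges p') (v : Fin n) (hv : v ∉ rows p) :
    rdeg A v = 0 := by
  have := rdeg_mono (hA.trans inter_subset_left) v
  rw [rdeg_edges, if_neg hv] at this
  omega

lemma rdeg_A_right (hA : A ⊆ edges p ∩ edges p') (v : Fin n) (hv : v ∉ rows p') :
    rdeg A v = 0 := by
  have := rdeg_mono (hA.trans inter_subset_right) v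
  rw [rdeg_edges, if_neg hv] at this
  omega

lemma cdeg_A_left (hA : A ⊆ edges p ∩ edges p') (v : Fin N) (hv : v ∉ cols p) :
    cdeg A v = 0 := by
  have := cdeg_mono (hA.trans inter_subset_left) v
  rw [cdeg_edges, if_neg hv] at this
  omega

lemma cdeg_A_right (hA : A ⊆ edges p ∩ edges p') (v : Fin N) (hv : v ∉ cols p') :
    cdeg A v = 0 := by
  have := cdeg_mono (hA.trans inter_subset_right) v
  rw [cdeg_edges, if_neg hv] at this
  omega

lemma trichotomy (hA : A ⊆ edges p ∩ edges p') :
    (A = edges p ∧ A = edges p') ∨ (zrows p p' A).card < (cols p ∩ cols p').card ∨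
      ((cols p ∩ cols p').card = 0 ∧ A = ∅) := by
  classical
  set S : Finset (Fin (m + 2)) := univ.filter (fun t => p.1 t ∈ zrows p p' A) with hS
  set T : Finset (Fin (m + 2)) := univ.filter (fun t => p.2 t ∈ cols p') with hT
  have hScard : S.card = (zrows p p' A).card := by
    rw [← card_map p.1]
    congr 1
    ext v
    simp only [hS, mem_map, mem_filter, mem_univ, true_and]
    constructor
    · rintro ⟨t, h, rfl⟩
      exact h
    · intro h
      have : v ∈ rows p := (mem_inter.mp (mem_filter.mp h).1).1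
      obtain ⟨t, rfl⟩ := (mem_rows p v).mp this
      exact ⟨t, h, rfl⟩
  have hTcard : T.card = (cols p ∩ cols p').card := by
    rw [← card_map p.2]
    congr 1
    ext v
    simp only [hT, mem_map, mem_filter, mem_univ, true_and, mem_inter]
    constructor
    · rintro ⟨t, h, rfl⟩
      exact ⟨(mem_cols p _).mpr ⟨t, rfl⟩, h⟩
    · rintro ⟨h1, h2⟩
      obtain ⟨t, rfl⟩ := (mem_cols p v).mp h1
      exact ⟨t, h2, rfl⟩
  have hSA : ∀ t ∈ S, (p.1 t, p.2 t) ∈ A ∧ (p.1 t, p.2 (t - 1)) ∈ A := by
    intro t ht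
    have h1 : p.1 t ∈ zrows p p' A := (mem_filter.mp ht).2
    have h2 := mem_filter.mp h1
    have h3 := rr_add hA (p.1 t)
    rw [h2.2, if_pos (mem_inter.mp h2.1).1, if_pos (mem_inter.mp h2.1).2] at h3
    have h4 : rdeg A (p.1 t) = 2 := by omega
    have h5 : A.filter (fun e => e.1 = p.1 t) ⊆ {(p.1 t, p.2 t), (p.1 t, p.2 (t - 1))} := by
      rw [← row_filter]
      exact filter_subset_filter _ (hA.trans inter_subset_left)
    have h6 : A.filter (fun e => e.1 = p.1 t) = {(p.1 t, p.2 t), (p.1 t, p.2 (t - 1))} := by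
      apply eq_of_subset_of_card_le h5
      rw [card_pair (row_ne p t)]
      exact h4.ge
    have h7 : (p.1 t, p.2 t) ∈ A.filter (fun e => e.1 = p.1 t) := by
      rw [h6]
      exact mem_insert_self _ _
    have h8 : (p.1 t, p.2 (t - 1)) ∈ A.filter (fun e => e.1 = p.1 t) := by
      rw [h6]
      exact mem_insert_of_mem (mem_singleton_self _)
    exact ⟨(mem_filter.mp h7).1, (mem_filter.mp h8).1⟩
  have hST : S ⊆ T := by
    intro t ht
    have h1 := (hSA t ht).1
    have h2 := edge_col p' (mem_inter.mp (hA h1)).2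
    exact mem_filter.mpr ⟨mem_univ _, h2⟩
  have hST' : ∀ t ∈ S, t - 1 ∈ T := by
    intro t ht
    have h1 := (hSA t ht).2
    have h2 := edge_col p' (mem_inter.mp (hA h1)).2
    exact mem_filter.mpr ⟨mem_univ _, h2⟩
  by_cases hlt : S.card < T.card
  · right; left
    rw [← hScard, ← hTcard]
    exact hlt
  · have hEq : S = T := eq_of_subset_of_card_le hST (not_lt.mp hlt)
    rcases S.eq_empty_or_nonempty with hemp | hne
    · right; right
      have hT0 : (cols p ∩ cols p').card = 0 := by
        rw [← hTcard, ← hEq, hemp, card_empty]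
      refine ⟨hT0, ?_⟩
      rw [eq_empty_iff_forall_notMem]
      intro e he
      have h1 := mem_inter.mp (hA he)
      have h2 : e.2 ∈ cols p ∩ cols p' := mem_inter.mpr ⟨edge_col p h1.1, edge_col p' h1.2⟩
      rw [card_eq_zero] at hT0
      rw [hT0] at h2
      exact absurd h2 (notMem_empty _)
    · left
      have huniv : S = univ := all_of_closed S hne (fun t ht => hEq ▸ hST' t ht)
      have hEA : edges p ⊆ A := by
        rintro ⟨v, w⟩ he
        rw [mem_edges] at he
        obtain ⟨t, rfl, rfl | rfl⟩ := he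
        · exact (hSA t (huniv ▸ mem_univ t)).1
        · have := (hSA (t + 1) (huniv ▸ mem_univ (t + 1))).2
          rwa [add_sub_cancel_right] at this
      have h1 : A = edges p := Subset.antisymm (hA.trans inter_subset_left) hEA
      refine ⟨h1, ?_⟩
      apply eq_of_subset_of_card_le (hA.trans inter_subset_right)
      rw [h1, card_edges, card_edges]

/-- a cycle is determined by its edge set and its first edge -/
lemma cyc_ext (h : edges p = edges p') (h0 : p.1 0 = p'.1 0) (h1 : p.2 0 = p'.2 0) : p = p' := by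
  have key : ∀ k : ℕ, p.1 (k : Fin (m + 2)) = p'.1 (k : Fin (m + 2)) ∧
      p.2 (k : Fin (m + 2)) = p'.2 (k : Fin (m + 2)) := by
    intro k
    induction k with
    | zero => exact ⟨by simpa using h0, by simpa using h1⟩
    | succ k ih =>
      obtain ⟨ih1, ih2⟩ := ih
      push_cast
      set t : Fin (m + 2) := (k : Fin (m + 2)) with ht
      have e1 : (p'.1 (t + 1), p.2 t) ∈ edges p := by
        rw [h, ih2]
        exact (mem_col p' t _).mpr (Or.inr rfl)
      have e2 : p'.1 (t + 1) = p.1 (t + 1) := by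
        rcases (mem_col p t _).mp e1 with h2 | h2
        · exfalso
          rw [ih1] at h2
          exact add_one_ne t (p'.1.injective h2)
        · exact h2
      have e3 : (p.1 (t + 1), p'.2 (t + 1)) ∈ edges p := by
        rw [h, ← e2]
        exact (mem_row p' (t + 1) _).mpr (Or.inl rfl)
      have e4 : p'.2 (t + 1) = p.2 (t + 1) := by
        rcases (mem_row p (t + 1) _).mp e3 with h2 | h2
        · exact h2
        · exfalso
          rw [add_sub_cancel_right, ih2] at h2
          exact add_one_ne t (p'.2.injective h2)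
      exact ⟨e2.symm, e4.symm⟩
  refine Prod.ext ?_ ?_
  · ext t : 1
    have := (key t.val).1
    simpa using this
  · ext t : 1
    have := (key t.val).2
    simpa using this

/-- at most `2(m+2)` cycles have a given edge set -/
lemma card_fiber (p : Cyc m n N) :
    ((univ : Finset (Cyc m n N)).filter (fun q => edges p = edges q)).card ≤ 2 * (m + 2) := by
  rw [← card_edges p]
  apply card_le_card_of_injOn (fun q => (q.1 0, q.2 0))
  · intro q hq
    have hq' := (mem_filter.mp hq).2
    show (q.1 0, q.2 0) ∈ edges p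
    rw [hq']
    exact (mem_row q 0 _).mpr (Or.inl rfl)
  · intro q hq q' hq' h
    have h1 := (mem_filter.mp hq).2
    have h2 := (mem_filter.mp hq').2
    exact cyc_ext (h1.symm.trans h2) (Prod.mk.inj h).1 (Prod.mk.inj h).2

end Pool.Agent.H78.SP
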