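import Mathlib

/-!
# Sparse PCA detection: the null law, the planted law, strong separation
-/

open MeasureTheory ProbabilityTheory Filter Topology Asymptotics

namespace Pool.Agent.H78.SP

/-- The null law `Q`: an `n × N` matrix with independent standard Gaussian entries. -/
noncomputable def nullLaw (n N : ℕ) : Measure (Fin n × Fin N → ℝ) :=
  Measure.pi fun _ => gaussianReal 0 1

/-- Given the spike `x`, the `N` columns of the matrix are independent with law
`N(0, I + β x xᵀ)`. -/
noncomputable def condLaw (n N : ℕ) (β : ℝ) (x : Fin n → ℝ) : Measure (Fin n × Fin N → ℝ) :=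
  (Measure.pi fun _ : Fin N => multivariateGaussian 0 (1 + β • Matrix.vecMulVec x x)).map
    (fun c e => c e.2 e.1)

/-- The law of a coordinate's sign: `1` and `-1` with probability `k/(2n)` each,
`0` with probability `1 - k/n`. -/
noncomputable def signWeight (n : ℕ) (k : ℝ) (s : SignType) : ENNReal :=
  ENNReal.ofReal (if s = 0 then 1 - k / n else k / (2 * n))

/-- The planted law `P`: the mixture over sign patterns `s` with independent coordinates of
the conditional laws given the spike `x = s / √k`. -/
noncomputable def plantedLaw (n N : ℕ) (β k : ℝ) : Measure (Fin n × Fin N → ℝ) :=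
  ∑ s : Fin n → SignType, (∏ i, signWeight n k (s i)) •
    condLaw n N β (fun i => ((s i : ℤ) : ℝ) / √k)

/-- Strong separation of two sequences of laws by a sequence of real functions: the means
differ for all large `n`, and the larger standard deviation is `o` of their difference. -/
def StronglySeparates {Ω : ℕ → Type} [∀ n, MeasurableSpace (Ω n)] (P Q : ∀ n, Measure (Ω n))
    (f : ∀ n, Ω n → ℝ) : Prop :=
  (∀ᶠ n in atTop, ∫ y, f n y ∂(P n) ≠ ∫ y, f n y ∂(Q n)) ∧
  (fun n => √(max Var[f n; P n] Var[f n; Q n])) =o[atTop]
    (fun n => ∫ y, f n y ∂(P n) - ∫ y, f n y ∂(Q n))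

end Pool.Agent.H78.SP
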