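import Pool.Agent.H78.SP.Sums

/-!
# Asymptotics, the polynomials and the diagonal argument
-/

open Finset MeasureTheory ProbabilityTheory Filter Topology Asymptotics

namespace Pool.Agent.H78.SP

lemma tendsto_descFactorial (l : ℕ) :
    Tendsto (fun n : ℕ => (n.descFactorial l : ℝ) / (n : ℝ) ^ l) atTop (𝓝 1) := by
  have h := isEquivalent_descFactorial l
  rw [isEquivalent_iff_tendsto_one] at h
  · exact h
  · filter_upwards [eventually_gt_atTop 0] with n hn
    positivity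

/-- the bound of both variances -/
noncomputable def vb (β k : ℝ) (m n N : ℕ) : ℝ :=
  4 ^ (m + 2) * (KK β m / ((n : ℝ) ^ (2 * (m + 2)) * k)) *
    ((Fintype.card (Cyc m n N) : ℝ) *
    ((((m + 2 : ℕ) : ℝ) * n + n) ^ (m + 2) * (((m + 2 : ℕ) : ℝ) * n + N) ^ (m + 2))) +
  (2 * (m + 2) : ℕ) * (Fintype.card (Cyc m n N) : ℝ)

/-- the planted mean -/
noncomputable def mu (β : ℝ) (m n N : ℕ) : ℝ :=
  (Fintype.card (Cyc m n N) : ℝ) * (β / n) ^ (m + 2)

lemma vb_alg {β k K a b r : ℝ} (l : ℕ) (hβ : 0 < β) (hk : 0 < k) (ha : 0 < a) (hb : 0 < b)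
    (hr : 0 < r) (L : ℝ) :
    4 ^ l * (K / (a ^ (2 * l) * k)) * ((r * a ^ l * b ^ l) *
      ((L * a + a) ^ l * (L * a + b) ^ l)) + 2 * L * (r * a ^ l * b ^ l) =
    ((r * a ^ l * b ^ l) * (β / a) ^ l) ^ 2 *
      (4 ^ l * K * (L + 1) ^ l * (L * (a / b) + 1) ^ l / (k * r * β ^ (2 * l)) +
        2 * L * (a / b) ^ l / (r * β ^ (2 * l))) := by
  have e1 : (L * a + a) ^ l = (L + 1) ^ l * a ^ l := by rw [← mul_pow]; congr 1; ring
  have e2 : (L * a + b) ^ l = (L * (a / b) + 1) ^ l * b ^ l := by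
    rw [← mul_pow]; congr 1; field_simp
  have e3 : (β / a) ^ l = β ^ l / a ^ l := div_pow _ _ _
  have e4 : (a / b) ^ l = a ^ l / b ^ l := div_pow _ _ _
  rw [e1, e2, e3, e4, pow_mul' a 2 l, pow_mul' β 2 l]
  generalize (L * (a / b) + 1) ^ l = X
  generalize (L + 1) ^ l = Y
  have hA : 0 < a ^ l := by positivity
  have hB : 0 < b ^ l := by positivity
  have hC : 0 < β ^ l := by positivity
  generalize a ^ l = A at *
  generalize b ^ l = B at *
  generalize β ^ l = C at *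
  field_simp

section

variable {β γ : ℝ} (hβ : 0 < β) (hγ : 0 < γ) {N : ℕ → ℕ}
  (hN : Tendsto (fun n : ℕ => (n : ℝ) / N n) atTop (𝓝 γ))
  {k : ℕ → ℝ} (hk : Tendsto k atTop atTop)
  (hkn : Tendsto (fun n : ℕ => k n / n) atTop (𝓝 0))

include hγ hN in
lemma eventually_N_pos : ∀ᶠ n : ℕ in atTop, 0 < N n := by
  filter_upwards [hN.eventually (lt_mem_nhds hγ)] with n hn
  by_contra h
  have : N n = 0 := by omega
  rw [this] at hn
  simp at hn

include hγ hN in
lemma tendsto_N : Tendsto N atTop atTop := by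
  have h1 : ∀ᶠ n : ℕ in atTop, (n : ℝ) / (2 * γ) ≤ N n := by
    have h2 : γ < 2 * γ := by linarith
    filter_upwards [hN.eventually (gt_mem_nhds h2), eventually_N_pos hγ hN] with n hn hp
    have hp' : (0 : ℝ) < N n := by exact_mod_cast hp
    rw [div_lt_iff₀ hp'] at hn
    rw [div_le_iff₀ (by positivity)]
    linarith
  have h3 : Tendsto (fun n : ℕ => (n : ℝ) / (2 * γ)) atTop atTop :=
    tendsto_natCast_atTop_atTop.atTop_div_const (by positivity)
  have h4 : Tendsto (fun n => (N n : ℝ)) atTop atTop := tendsto_atTop_mono' _ h1 h3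
  exact tendsto_natCast_atTop_iff.mp h4

include hkn in
lemma eventually_k_le : ∀ᶠ n : ℕ in atTop, k n ≤ n := by
  filter_upwards [hkn.eventually (gt_mem_nhds zero_lt_one), eventually_gt_atTop 0] with n hn h0
  have h0' : (0 : ℝ) < n := by exact_mod_cast h0
  rw [div_lt_one h0'] at hn
  exact hn.le

include hβ hγ hN hk in
lemma vb_asymp (m : ℕ) : ∃ q : ℕ → ℝ,
    Tendsto q atTop (𝓝 (2 * ((m + 2 : ℕ) : ℝ) * (γ / β ^ 2) ^ (m + 2))) ∧
      ∀ᶠ n : ℕ in atTop, vb β (k n) m n (N n) = mu β m n (N n) ^ 2 * q n := by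
  set l := m + 2 with hl
  set r : ℕ → ℝ := fun n => (n.descFactorial l : ℝ) / (n : ℝ) ^ l *
    (((N n).descFactorial l : ℝ) / ((N n : ℕ) : ℝ) ^ l) with hr
  have hr1 : Tendsto r atTop (𝓝 1) := by
    have := (tendsto_descFactorial l).mul ((tendsto_descFactorial l).comp (tendsto_N hγ hN))
    rw [mul_one] at this
    exact this
  refine ⟨fun n => 4 ^ l * KK β m * ((l : ℝ) + 1) ^ l * ((l : ℝ) * ((n : ℝ) / N n) + 1) ^ l /
    (k n * r n * β ^ (2 * l)) +
        2 * (l : ℝ) * ((n : ℝ) / N n) ^ l / (r n * β ^ (2 * l)), ?_, ?_⟩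
  · have t1 : Tendsto (fun n : ℕ => 4 ^ l * KK β m * ((l : ℝ) + 1) ^ l *
        ((l : ℝ) * ((n : ℝ) / N n) + 1) ^ l) atTop
        (𝓝 (4 ^ l * KK β m * ((l : ℝ) + 1) ^ l * ((l : ℝ) * γ + 1) ^ l)) :=
      (((hN.const_mul (l : ℝ)).add_const 1).pow l).const_mul _
    have t2 : Tendsto (fun n : ℕ => k n * r n * β ^ (2 * l)) atTop atTop :=
      (hk.atTop_mul_pos zero_lt_one hr1).atTop_mul_const (by positivity)
    have t3 := t1.div_atTop t2
    have t4 : Tendsto (fun n : ℕ => 2 * (l : ℝ) * ((n : ℝ) / N n) ^ l / (r n * β ^ (2 * l)))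
        atTop (𝓝 (2 * (l : ℝ) * γ ^ l / (1 * β ^ (2 * l)))) := by
      apply Tendsto.div ((hN.pow l).const_mul _) (hr1.mul_const _)
      positivity
    have t5 := t3.add t4
    rw [zero_add] at t5
    convert t5 using 2
    rw [div_pow, one_mul, ← pow_mul]
    ring
  · filter_upwards [eventually_gt_atTop 0, eventually_N_pos hγ hN,
      hr1.eventually (lt_mem_nhds zero_lt_one), hk.eventually_gt_atTop 0] with n h1 h2 h3 h4
    have h1' : (0 : ℝ) < n := by exact_mod_cast h1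
    have h2' : (0 : ℝ) < N n := by exact_mod_cast h2
    have hc : (Fintype.card (Cyc m n (N n)) : ℝ) = r n * (n : ℝ) ^ l * (N n : ℝ) ^ l := by
      rw [card_cyc, hr]
      simp only
      have : (n : ℝ) ^ l ≠ 0 := by positivity
      have : (N n : ℝ) ^ l ≠ 0 := by positivity
      field_simp
      rfl
    unfold vb mu
    rw [hc, ← hl]
    have := vb_alg (K := KK β m) l hβ h4 h1' h2' h3 (l : ℝ)
    rw [← this]
    push_cast
    ring

lemma tendsto_q (hlam : 1 < β / √γ) (hβ : 0 < β) (hγ : 0 < γ) :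
    Tendsto (fun m : ℕ => 2 * ((m + 2 : ℕ) : ℝ) * (γ / β ^ 2) ^ (m + 2)) atTop (𝓝 0) := by
  have h1 : γ / β ^ 2 < 1 := by
    rw [div_lt_one (by positivity)]
    have h2 : 0 < √γ := Real.sqrt_pos.mpr hγ
    rw [one_lt_div h2] at hlam
    calc γ = √γ ^ 2 := (Real.sq_sqrt hγ.le).symm
      _ < β ^ 2 := by gcongr
  have h0 : 0 ≤ γ / β ^ 2 := by positivity
  have h3 := tendsto_self_mul_const_pow_of_lt_one h0 h1
  have h4 := (h3.comp (tendsto_add_atTop_nat 2)).const_mul 2
  rw [mul_zero] at h4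
  refine h4.congr fun m => ?_
  simp only [Function.comp_apply]
  ring

/-- the ratio that must tend to zero -/
noncomputable def dev (β k : ℝ) (m n N : ℕ) : ℝ :=
  √(max Var[cyf m n N; plantedLaw n N β k] Var[cyf m n N; nullLaw n N])

/-- the gap of the means -/
noncomputable def gap (β k : ℝ) (m n N : ℕ) : ℝ :=
  ∫ Y, cyf m n N Y ∂(plantedLaw n N β k) - ∫ Y, cyf m n N Y ∂(nullLaw n N)

include hβ hγ hN hk hkn in
lemma exists_good (hlam : 1 < β / √γ) {ε : ℝ} (hε : 0 < ε) :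
    ∃ m : ℕ, ∀ᶠ n : ℕ in atTop, gap β (k n) m n (N n) ≠ 0 ∧
      dev β (k n) m n (N n) ≤ ε * |gap β (k n) m n (N n)| := by
  have h1 := (tendsto_q hlam hβ hγ).eventually (gt_mem_nhds (show (0 : ℝ) < ε ^ 2 by positivity))
  obtain ⟨m, hm⟩ := h1.exists
  refine ⟨m, ?_⟩
  obtain ⟨q, hq, hq'⟩ := vb_asymp hβ hγ hN hk m
  filter_upwards [hq.eventually (gt_mem_nhds hm), hq', eventually_k_le hkn,
    hk.eventually_ge_atTop 1, eventually_ge_atTop (m + 2),
    (tendsto_N hγ hN).eventually_ge_atTop (m + 2)] with n h2 h3 h4 h5 h6 h7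
  have hgap : gap β (k n) m n (N n) = mu β m n (N n) := by
    unfold gap mu
    rw [mean_planted hβ.le h5 h4, mean_null, sub_zero]
  have hmu : 0 < mu β m n (N n) := by
    unfold mu
    have h8 : (0 : ℝ) < n := by
      have : 0 < n := by omega
      exact_mod_cast this
    have h9 : (0 : ℝ) < (Fintype.card (Cyc m n (N n)) : ℝ) := by
      rw [card_cyc]
      have a1 : 0 < n.descFactorial (m + 2) := Nat.descFactorial_pos.mpr h6
      have a2 : 0 < (N n).descFactorial (m + 2) := Nat.descFactorial_pos.mpr h7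
      positivity
    positivity
  have hvb : max Var[cyf m n (N n); plantedLaw n (N n) β (k n)]
      Var[cyf m n (N n); nullLaw n (N n)] ≤ vb β (k n) m n (N n) := by
    apply max_le
    · exact var_planted hβ.le h5 h4
    · refine var_null.trans ?_
      unfold vb
      have hK := KK_nonneg β m
      have hk0 : 0 < k n := by linarith
      have : 0 ≤ 4 ^ (m + 2) * (KK β m / ((n : ℝ) ^ (2 * (m + 2)) * k n)) *
        ((Fintype.card (Cyc m n (N n)) : ℝ) *
        ((((m + 2 : ℕ) : ℝ) * n + n) ^ (m + 2) *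
          (((m + 2 : ℕ) : ℝ) * n + N n) ^ (m + 2))) := by positivity
      linarith
  refine ⟨by rw [hgap]; exact hmu.ne', ?_⟩
  unfold dev
  rw [hgap]
  rw [show ε * |mu β m n (N n)| = √((ε * mu β m n (N n)) ^ 2) by
    rw [Real.sqrt_sq_eq_abs, abs_mul, abs_of_pos hε]]
  apply Real.sqrt_le_sqrt
  refine hvb.trans ?_
  rw [h3, mul_pow]
  have : 0 ≤ mu β m n (N n) ^ 2 := sq_nonneg _
  nlinarith

end

/-- the cycle polynomial -/
noncomputable def cycPoly (m n N : ℕ) : MvPolynomial (Fin n × Fin N) ℝ :=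
  ∑ p : Cyc m n N, ∏ e ∈ edges p, MvPolynomial.X e

lemma eval_cycPoly (m n N : ℕ) (Y : Fin n × Fin N → ℝ) :
    MvPolynomial.eval Y (cycPoly m n N) = cyf m n N Y := by
  unfold cycPoly cyf mon
  simp [map_sum, map_prod]

lemma totalDegree_cycPoly (m n N : ℕ) : (cycPoly m n N).totalDegree ≤ 2 * (m + 2) := by
  unfold cycPoly
  refine (MvPolynomial.totalDegree_finsetSum _ _).trans ?_
  refine Finset.sup_le fun p _ => ?_
  refine (MvPolynomial.totalDegree_finsetProd _ _).trans ?_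
  simp only [MvPolynomial.totalDegree_X, sum_const, smul_eq_mul, mul_one]
  exact (card_edges p).le

theorem main (β γ : ℝ) (hβ : 0 < β) (hγ : 0 < γ) (hlam : 1 < β / √γ)
    (N : ℕ → ℕ) (hN : Tendsto (fun n : ℕ => (n : ℝ) / N n) atTop (𝓝 γ))
    (k : ℕ → ℝ) (hk : Tendsto k atTop atTop)
    (hkn : Tendsto (fun n : ℕ => k n / n) atTop (𝓝 0))
    (D : ℕ → ℕ) (hD : Tendsto D atTop atTop) :
    ∃ f : ∀ n, MvPolynomial (Fin n × Fin (N n)) ℝ,
      (∀ n, (f n).totalDegree ≤ D n) ∧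
      StronglySeparates (fun n => plantedLaw n (N n) β (k n)) (fun n => nullLaw n (N n))
        (fun n y => MvPolynomial.eval y (f n)) := by
  classical
  have hg : ∀ j : ℕ, ∃ m : ℕ, ∀ᶠ n : ℕ in atTop, gap β (k n) m n (N n) ≠ 0 ∧
      dev β (k n) m n (N n) ≤ 1 / ((j : ℝ) + 1) * |gap β (k n) m n (N n)| := fun j =>
    exists_good hβ hγ hN hk hkn hlam (by positivity)
  choose M hM using hg
  set good : ℕ → ℕ → Prop := fun n j => 2 * (M j + 2) ≤ D n ∧
    gap β (k n) (M j) n (N n) ≠ 0 ∧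
    dev β (k n) (M j) n (N n) ≤ 1 / ((j : ℝ) + 1) * |gap β (k n) (M j) n (N n)| with hgood
  have hev : ∀ j, ∀ᶠ n in atTop, good n j := fun j =>
    (hD.eventually_ge_atTop _).and (hM j)
  set J : ℕ → ℕ := fun n => Nat.findGreatest (good n) n with hJ
  refine ⟨fun n => if good n (J n) then cycPoly (M (J n)) n (N n) else 0, ?_, ?_⟩
  · intro n
    simp only
    split_ifs with h
    · exact (totalDegree_cycPoly _ _ _).trans h.1
    · simp
  · unfold StronglySeparates
    refine ⟨?_, ?_⟩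
    · filter_upwards [hev 0, eventually_ge_atTop 0] with n h1 h2
      have h3 : good n (J n) := Nat.findGreatest_spec h2 h1
      simp only [if_pos h3, eval_cycPoly]
      have h4 := h3.2.1
      unfold gap at h4
      exact sub_ne_zero.mp h4
    rw [isLittleO_iff]
    intro c hc
    obtain ⟨j0, hj0⟩ := exists_nat_one_div_lt hc
    filter_upwards [hev j0, eventually_ge_atTop j0] with n h1 h2
    have h3 : good n (J n) := Nat.findGreatest_spec h2 h1
    have h4 : j0 ≤ J n := Nat.le_findGreatest h2 h1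
    simp only [if_pos h3, eval_cycPoly]
    have h5 := h3.2.2
    rw [Real.norm_of_nonneg (Real.sqrt_nonneg _), Real.norm_eq_abs]
    have h6 : 1 / ((J n : ℝ) + 1) ≤ c := by
      have h7 : 1 / ((J n : ℝ) + 1) ≤ 1 / ((j0 : ℝ) + 1) := by
        apply one_div_le_one_div_of_le (by positivity)
        have : (j0 : ℝ) ≤ J n := by exact_mod_cast h4
        linarith
      linarith
    calc _ ≤ 1 / ((J n : ℝ) + 1) * |gap β (k n) (M (J n)) n (N n)| := h5
      _ ≤ c * |gap β (k n) (M (J n)) n (N n)| := by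
        apply mul_le_mul_of_nonneg_right h6 (abs_nonneg _)

end Pool.Agent.H78.SP
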