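import Pool.Agent.H78.SP.Column

/-!
# Moments of the conditional law
-/

open MeasureTheory ProbabilityTheory Filter Topology Asymptotics Matrix
open scoped NNReal ENNReal

namespace Pool.Agent.H78.SP

variable {n N : ℕ}

section AllLp

variable {Ω : Type*} [MeasurableSpace Ω] {μ : Measure Ω} {f g : Ω → ℝ}

/-- all moments are finite -/
def AllLp (f : Ω → ℝ) (μ : Measure Ω) : Prop := ∀ p : ℝ≥0, MemLp f p μ

lemma AllLp.mul (hf : AllLp f μ) (hg : AllLp g μ) : AllLp (fun ω => f ω * g ω) μ := by
  intro p
  rcases eq_or_ne p 0 with rfl | hp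
  · have h1 := (hf 0).aestronglyMeasurable
    have h2 := (hg 0).aestronglyMeasurable
    have h3 : AEStronglyMeasurable (fun ω => f ω * g ω) μ := h1.mul h2
    simpa [memLp_zero_iff_aestronglyMeasurable] using h3
  have h1 := hf (2 * p)
  have h2 := hg (2 * p)
  have : ENNReal.HolderTriple ((2 * p : ℝ≥0) : ℝ≥0∞) ((2 * p : ℝ≥0) : ℝ≥0∞) (p : ℝ≥0∞) := by
    constructor
    push_cast
    rw [ENNReal.mul_inv (Or.inl (by norm_num)) (Or.inl (by norm_num)), ← add_mul,
      ENNReal.inv_two_add_inv_two, one_mul]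
  exact h2.mul' h1

lemma AllLp.add (hf : AllLp f μ) (hg : AllLp g μ) : AllLp (fun ω => f ω + g ω) μ :=
  fun p => (hf p).add (hg p)

lemma AllLp.const_mul (hf : AllLp f μ) (c : ℝ) : AllLp (fun ω => c * f ω) μ :=
  fun p => (hf p).const_mul c

lemma AllLp.const [IsFiniteMeasure μ] (c : ℝ) : AllLp (fun _ : Ω => c) μ :=
  fun _ => memLp_const c

lemma AllLp.pow [IsFiniteMeasure μ] (hf : AllLp f μ) (k : ℕ) : AllLp (fun ω => f ω ^ k) μ := by
  induction k with
  | zero => simpa using AllLp.const (μ := μ) (1 : ℝ)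
  | succ k ih =>
    simp only [pow_succ]
    exact ih.mul hf

lemma AllLp.prod [IsFiniteMeasure μ] {ι : Type*} {s : Finset ι} {F : ι → Ω → ℝ}
    (hF : ∀ i ∈ s, AllLp (F i) μ) : AllLp (fun ω => ∏ i ∈ s, F i ω) μ := by
  classical
  induction s using Finset.induction_on with
  | empty => simpa using AllLp.const (μ := μ) (1 : ℝ)
  | insert a s ha ih =>
    simp only [Finset.prod_insert ha]
    exact (hF a (Finset.mem_insert_self a s)).mul
      (ih fun i hi => hF i (Finset.mem_insert_of_mem hi))

lemma AllLp.sum [IsFiniteMeasure μ] {ι : Type*} {s : Finset ι} {F : ι → Ω → ℝ}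
    (hF : ∀ i ∈ s, AllLp (F i) μ) : AllLp (fun ω => ∑ i ∈ s, F i ω) μ := by
  classical
  induction s using Finset.induction_on with
  | empty => simpa using AllLp.const (μ := μ) (0 : ℝ)
  | insert a s ha ih =>
    simp only [Finset.sum_insert ha]
    exact (hF a (Finset.mem_insert_self a s)).add
      (ih fun i hi => hF i (Finset.mem_insert_of_mem hi))

lemma AllLp.integrable (hf : AllLp f μ) : Integrable f μ := by
  have := hf 1
  rwa [ENNReal.coe_one, memLp_one_iff_integrable] at this

lemma AllLp.memLp_two (hf : AllLp f μ) : MemLp f 2 μ := by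
  have := hf 2
  simpa using this

lemma AllLp.comp_map {Ω' : Type*} [MeasurableSpace Ω'] {T : Ω' → Ω} {ν : Measure Ω'}
    (hT : Measurable T) (hfm : Measurable f) (h : AllLp (fun ω => f (T ω)) ν) :
    AllLp f (ν.map T) := by
  intro p
  rw [memLp_map_measure_iff hfm.aestronglyMeasurable hT.aemeasurable]
  exact h p

lemma AllLp.of_map {Ω' : Type*} [MeasurableSpace Ω'] {T : Ω' → Ω} {ν : Measure Ω'}
    (hT : Measurable T) (hfm : Measurable f) (h : AllLp f (ν.map T)) :
    AllLp (fun ω => f (T ω)) ν := by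
  intro p
  have := h p
  rwa [memLp_map_measure_iff hfm.aestronglyMeasurable hT.aemeasurable] at this

end AllLp

lemma allLp_id_g1 : AllLp (fun y : ℝ => y) g1 := fun p => memLp_id_gaussianReal p

/-- the shifted Gaussian moment -/
noncomputable def G (c : ℕ) (m : ℝ) : ℝ := ∫ z, (z + m) ^ c ∂g1

/-- Gaussian moments -/
noncomputable def gm (c : ℕ) : ℝ := ∫ z, z ^ c ∂g1

lemma gm_zero : gm 0 = 1 := by simp [gm]

lemma gm_one : gm 1 = 0 := by simp [gm, g1]

lemma gm_two : gm 2 = 1 := by
  have h := variance_eq_sub (μ := g1) (X := id) (memLp_id_gaussianReal 2)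
  rw [variance_id_gaussianReal] at h
  simp only [Pi.pow_apply, id_eq, integral_id_gaussianReal] at h
  unfold gm
  simp at h
  exact h.symm

lemma gm_even_nonneg (h : ℕ) : 0 ≤ gm (2 * h) := by
  unfold gm
  refine integral_nonneg fun z => ?_
  rw [pow_mul]
  positivity

lemma G_zero (m : ℝ) : G 0 m = 1 := by simp [G]

lemma G_one (m : ℝ) : G 1 m = m := by
  unfold G
  simp only [pow_one]
  rw [integral_add allLp_id_g1.integrable (integrable_const _)]
  simp [g1]

lemma G_two (m : ℝ) : G 2 m = 1 + m ^ 2 := by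
  unfold G
  have e : ∀ z : ℝ, (z + m) ^ 2 = z ^ 2 + (2 * m * z + m ^ 2) := fun z => by ring
  simp_rw [e]
  have hi : Integrable (fun z : ℝ => 2 * m * z + m ^ 2) g1 :=
    ((allLp_id_g1.const_mul (2 * m)).integrable).add (integrable_const _)
  rw [integral_add (allLp_id_g1.pow 2).integrable hi,
    integral_add (allLp_id_g1.const_mul (2 * m)).integrable (integrable_const _),
    integral_const_mul]
  have := gm_two
  unfold gm at this
  rw [this]
  simp [g1]

/-- one column -/
lemma column_moment {β : ℝ} (hβ : 0 ≤ β) (x : Fin n → ℝ) (c : Fin n → ℕ) :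
    ∫ y : EuclideanSpace ℝ (Fin n), ∏ i, (y i) ^ (c i)
      ∂(multivariateGaussian 0 (1 + β • Matrix.vecMulVec x x)) =
    ∫ u, ∏ i, G (c i) (√β * x i * u) ∂g1 := by
  rw [mvg_eq hβ x, integral_map (by fun_prop) (Measurable.aestronglyMeasurable (by fun_prop))]
  simp only
  have hint : Integrable (fun p : (Fin n → ℝ) × ℝ => ∏ i, (p.1 i + √β * x i * p.2) ^ (c i))
      ((Measure.pi fun _ : Fin n => g1).prod g1) := by
    apply AllLp.integrable
    apply AllLp.prod
    intro i _
    apply AllLp.pow
    apply AllLp.add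
    · have h1 : AllLp (fun y : ℝ => y) (((Measure.pi fun _ : Fin n => g1).prod g1).map
          (fun p : (Fin n → ℝ) × ℝ => p.1 i)) := by
        have : ((Measure.pi fun _ : Fin n => g1).prod g1).map
          (fun p : (Fin n → ℝ) × ℝ => p.1 i) = g1 := by
          have e : (fun p : (Fin n → ℝ) × ℝ => p.1 i) = (Function.eval i) ∘ Prod.fst := rfl
          rw [e, ← Measure.map_map (measurable_pi_apply i) measurable_fst]
          have hf : ((Measure.pi fun _ : Fin n => g1).prod g1).map Prod.fst =
            (Measure.pi fun _ : Fin n => g1) := by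
            have := (measurePreserving_fst (μ := (Measure.pi fun _ : Fin n => g1))
              (ν := g1)).map_eq
            exact this
          rw [hf]
          exact (measurePreserving_eval (fun _ : Fin n => g1) i).map_eq
        rw [this]
        exact allLp_id_g1
      exact h1.of_map (by fun_prop) measurable_id
    · have h1 : AllLp (fun y : ℝ => y) (((Measure.pi fun _ : Fin n => g1).prod g1).map
          (fun p : (Fin n → ℝ) × ℝ => p.2)) := by
        have : ((Measure.pi fun _ : Fin n => g1).prod g1).map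
          (fun p : (Fin n → ℝ) × ℝ => p.2) = g1 :=
          (measurePreserving_snd (μ := (Measure.pi fun _ : Fin n => g1)) (ν := g1)).map_eq
        rw [this]
        exact allLp_id_g1
      have h2 := h1.of_map (by fun_prop) measurable_id
      exact h2.const_mul _
  rw [integral_prod_symm _ hint]
  refine integral_congr_ae (Eventually.of_forall fun u => ?_)
  simp only
  rw [integral_fintype_prod_eq_prod (f := fun (i : Fin n) (z : ℝ) => (z + √β * x i * u) ^ (c i))]
  rfl

lemma meas_entry : Measurable (fun (c : Fin N → EuclideanSpace ℝ (Fin n))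
    (e : Fin n × Fin N) => (c e.2) e.1) := by
  refine measurable_pi_lambda _ fun e => ?_
  have h1 : Measurable (fun y : EuclideanSpace ℝ (Fin n) => y e.1) := by fun_prop
  exact h1.comp (measurable_pi_apply e.2)

lemma condLaw_moment {β : ℝ} (hβ : 0 ≤ β) (x : Fin n → ℝ) (c : Fin n × Fin N → ℕ) :
    ∫ Y, ∏ e, (Y e) ^ (c e) ∂(condLaw n N β x) =
    ∫ u : Fin N → ℝ, ∏ e : Fin n × Fin N, G (c e) (√β * x e.1 * u e.2)
      ∂(Measure.pi fun _ => g1) := by
  unfold condLaw
  rw [integral_map meas_entry.aemeasurable (Measurable.aestronglyMeasurable (by fun_prop))]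
  simp only [Fintype.prod_prod_type_right]
  rw [integral_fintype_prod_eq_prod (f := fun (j : Fin N) (y : EuclideanSpace ℝ (Fin n)) =>
    ∏ i, (y i) ^ (c (i, j)))]
  simp_rw [column_moment hβ x]
  rw [← integral_fintype_prod_eq_prod (f := fun (j : Fin N) (u : ℝ) =>
    ∏ i, G (c (i, j)) (√β * x i * u))]

end Pool.Agent.H78.SP
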