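import Pool.Agent.H78.SP.Moments

/-!
# Pair moments of monomials
-/

open MeasureTheory ProbabilityTheory Filter Topology Asymptotics Matrix
open scoped NNReal ENNReal

namespace Pool.Agent.H78.SP

variable {n N : ℕ}

/-- the multilinear monomial of an edge set -/
def mon (E : Finset (Fin n × Fin N)) (Y : Fin n × Fin N → ℝ) : ℝ := ∏ e ∈ E, Y e

lemma measurable_mon (E : Finset (Fin n × Fin N)) : Measurable (mon E) := by
  unfold mon
  fun_prop

/-- multiplicity -/
def cnt (E E' : Finset (Fin n × Fin N)) (e : Fin n × Fin N) : ℕ :=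
  (if e ∈ E then 1 else 0) + (if e ∈ E' then 1 else 0)

lemma mon_mul_mon (E E' : Finset (Fin n × Fin N)) (Y : Fin n × Fin N → ℝ) :
    mon E Y * mon E' Y = ∏ e, Y e ^ cnt E E' e := by
  unfold mon cnt
  simp only [pow_add, Finset.prod_mul_distrib]
  congr 1
  · simp [Finset.prod_ite_mem]
  · simp [Finset.prod_ite_mem]

lemma prod_G (E E' : Finset (Fin n × Fin N)) (m : Fin n × Fin N → ℝ) :
    ∏ e, G (cnt E E' e) (m e) =
      ∑ A ∈ (E ∩ E').powerset, (∏ e ∈ E \ A, m e) * ∏ e ∈ E' \ A, m e := by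
  have h1 : ∀ e, G (cnt E E' e) (m e) =
      (if e ∈ E ∩ E' then 1 + m e ^ 2 else 1) * ((if e ∈ E \ E' then m e else 1) *
        (if e ∈ E' \ E then m e else 1)) := by
    intro e
    unfold cnt
    by_cases h : e ∈ E <;> by_cases h' : e ∈ E' <;>
      simp [h, h', G_zero, G_one, G_two]
  simp_rw [h1]
  rw [Finset.prod_mul_distrib, Finset.prod_mul_distrib]
  simp only [Finset.prod_ite_mem, Finset.univ_inter]
  rw [Finset.prod_add, Finset.sum_mul]
  refine Finset.sum_congr rfl fun A hA => ?_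
  rw [Finset.mem_powerset] at hA
  have hE : E \ A = ((E ∩ E') \ A) ∪ (E \ E') := by
    ext e
    have := @hA e
    simp only [Finset.mem_inter, Finset.mem_sdiff, Finset.mem_union] at this ⊢
    tauto
  have hE' : E' \ A = ((E ∩ E') \ A) ∪ (E' \ E) := by
    ext e
    have := @hA e
    simp only [Finset.mem_inter, Finset.mem_sdiff, Finset.mem_union] at this ⊢
    tauto
  have hd : Disjoint ((E ∩ E') \ A) (E \ E') := by
    rw [Finset.disjoint_left]
    intro e he he'
    simp only [Finset.mem_inter, Finset.mem_sdiff] at he he'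
    tauto
  have hd' : Disjoint ((E ∩ E') \ A) (E' \ E) := by
    rw [Finset.disjoint_left]
    intro e he he'
    simp only [Finset.mem_inter, Finset.mem_sdiff] at he he'
    tauto
  rw [hE, hE', Finset.prod_union hd, Finset.prod_union hd', Finset.prod_pow]
  simp only [Finset.prod_const_one]
  ring

/-- row degree of an edge set -/
def rdeg (F : Finset (Fin n × Fin N)) (i : Fin n) : ℕ := (F.filter (fun e => e.1 = i)).card

/-- column degree of an edge set -/
def cdeg (F : Finset (Fin n × Fin N)) (j : Fin N) : ℕ := (F.filter (fun e => e.2 = j)).card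

lemma prod_fst (F : Finset (Fin n × Fin N)) (x : Fin n → ℝ) :
    ∏ e ∈ F, x e.1 = ∏ i, x i ^ rdeg F i := by
  rw [← Finset.prod_fiberwise F (fun e => e.1) (fun e => x e.1)]
  refine Finset.prod_congr rfl fun i _ => ?_
  unfold rdeg
  rw [← Finset.prod_const]
  refine Finset.prod_congr rfl fun e he => ?_
  rw [(Finset.mem_filter.mp he).2]

lemma prod_snd (F : Finset (Fin n × Fin N)) (u : Fin N → ℝ) :
    ∏ e ∈ F, u e.2 = ∏ j, u j ^ cdeg F j := by
  rw [← Finset.prod_fiberwise F (fun e => e.2) (fun e => u e.2)]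
  refine Finset.prod_congr rfl fun i _ => ?_
  unfold cdeg
  rw [← Finset.prod_const]
  refine Finset.prod_congr rfl fun e he => ?_
  rw [(Finset.mem_filter.mp he).2]

lemma pair_term (β : ℝ) (x : Fin n → ℝ) (F F' : Finset (Fin n × Fin N)) (u : Fin N → ℝ) :
    (∏ e ∈ F, √β * x e.1 * u e.2) * (∏ e ∈ F', √β * x e.1 * u e.2) =
      (√β ^ (F.card + F'.card) * ∏ i, x i ^ (rdeg F i + rdeg F' i)) *
        ∏ j, u j ^ (cdeg F j + cdeg F' j) := by
  simp only [Finset.prod_mul_distrib, Finset.prod_const, prod_fst, prod_snd, pow_add]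
  ring

lemma pair_condLaw {β : ℝ} (hβ : 0 ≤ β) (x : Fin n → ℝ) (E E' : Finset (Fin n × Fin N)) :
    ∫ Y, mon E Y * mon E' Y ∂(condLaw n N β x) =
      ∑ A ∈ (E ∩ E').powerset,
        (√β ^ ((E \ A).card + (E' \ A).card) *
          ∏ i, x i ^ (rdeg (E \ A) i + rdeg (E' \ A) i)) *
          ∏ j, gm (cdeg (E \ A) j + cdeg (E' \ A) j) := by
  simp_rw [mon_mul_mon]
  rw [condLaw_moment hβ x]
  simp_rw [prod_G, pair_term]
  rw [integral_finsetSum]
  · refine Finset.sum_congr rfl fun A _ => ?_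
    rw [integral_const_mul]
    congr 1
    rw [integral_fintype_prod_eq_prod (f := fun (j : Fin N) (z : ℝ) =>
      z ^ (cdeg (E \ A) j + cdeg (E' \ A) j))]
    rfl
  · intro A _
    apply Integrable.const_mul
    exact Integrable.fintype_prod (f := fun (j : Fin N) (z : ℝ) =>
      z ^ (cdeg (E \ A) j + cdeg (E' \ A) j)) fun j => (allLp_id_g1.pow _).integrable

instance (β : ℝ) (x : Fin n → ℝ) : IsProbabilityMeasure (condLaw n N β x) :=
  Measure.isProbabilityMeasure_map meas_entry.aemeasurable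

lemma allLp_entry (β : ℝ) (x : Fin n → ℝ) (e : Fin n × Fin N) :
    AllLp (fun Y => Y e) (condLaw n N β x) := by
  unfold condLaw
  apply AllLp.comp_map meas_entry (measurable_pi_apply e)
  have h1 : AllLp (fun y : EuclideanSpace ℝ (Fin n) => y e.1)
      (multivariateGaussian 0 (1 + β • Matrix.vecMulVec x x)) := by
    intro p
    have := IsGaussian.memLp_dual (multivariateGaussian 0 (1 + β • Matrix.vecMulVec x x))
      (EuclideanSpace.proj e.1) p (by simp)
    exact this
  have hmap : (Measure.pi fun _ : Fin N =>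
      multivariateGaussian 0 (1 + β • Matrix.vecMulVec x x)).map (Function.eval e.2) =
      multivariateGaussian 0 (1 + β • Matrix.vecMulVec x x) :=
    (measurePreserving_eval (fun _ : Fin N =>
      multivariateGaussian 0 (1 + β • Matrix.vecMulVec x x)) e.2).map_eq
  rw [← hmap] at h1
  exact AllLp.of_map (f := fun y : EuclideanSpace ℝ (Fin n) => y e.1)
    (measurable_pi_apply e.2) (by fun_prop) h1

lemma allLp_mon (β : ℝ) (x : Fin n → ℝ) (E : Finset (Fin n × Fin N)) :
    AllLp (mon E) (condLaw n N β x) :=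
  AllLp.prod fun e _ => allLp_entry β x e

/-- the moments of a coordinate of the spike -/
noncomputable def xm (n : ℕ) (k : ℝ) (r : ℕ) : ℝ :=
  ∑ s : SignType, (signWeight n k s).toReal * (((s : ℤ) : ℝ) / √k) ^ r

/-- the weight of a sign pattern -/
noncomputable def pw (n : ℕ) (k : ℝ) (s : Fin n → SignType) : ℝ≥0∞ := ∏ i, signWeight n k (s i)

lemma signWeight_ne_top (n : ℕ) (k : ℝ) (s : SignType) : signWeight n k s ≠ ⊤ :=
  ENNReal.ofReal_ne_top

lemma pw_ne_top (n : ℕ) (k : ℝ) (s : Fin n → SignType) : pw n k s ≠ ⊤ :=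
  ENNReal.prod_ne_top fun i _ => signWeight_ne_top n k (s i)

lemma integral_planted (β k : ℝ) {F : (Fin n × Fin N → ℝ) → ℝ}
    (hF : ∀ s : Fin n → SignType, Integrable F
      (condLaw n N β (fun i => ((s i : ℤ) : ℝ) / √k))) :
    ∫ Y, F Y ∂(plantedLaw n N β k) =
      ∑ s : Fin n → SignType, (pw n k s).toReal *
        ∫ Y, F Y ∂(condLaw n N β (fun i => ((s i : ℤ) : ℝ) / √k)) := by
  unfold plantedLaw
  rw [integral_finsetSum_measure]
  · refine Finset.sum_congr rfl fun s _ => ?_
    rw [integral_smul_measure]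
    rfl
  · intro s _
    exact (hF s).smul_measure (pw_ne_top n k s)

lemma pair_planted {β : ℝ} (hβ : 0 ≤ β) (k : ℝ) (E E' : Finset (Fin n × Fin N)) :
    ∫ Y, mon E Y * mon E' Y ∂(plantedLaw n N β k) =
      ∑ A ∈ (E ∩ E').powerset,
        √β ^ ((E \ A).card + (E' \ A).card) *
          (∏ i, xm n k (rdeg (E \ A) i + rdeg (E' \ A) i)) *
          ∏ j, gm (cdeg (E \ A) j + cdeg (E' \ A) j) := by
  rw [integral_planted]
  · simp_rw [pair_condLaw hβ, Finset.mul_sum]
    rw [Finset.sum_comm]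
    refine Finset.sum_congr rfl fun A _ => ?_
    have : ∏ i, xm n k (rdeg (E \ A) i + rdeg (E' \ A) i) =
        ∑ s : Fin n → SignType, (pw n k s).toReal *
          ∏ i, (((s i : ℤ) : ℝ) / √k) ^ (rdeg (E \ A) i + rdeg (E' \ A) i) := by
      unfold xm pw
      rw [Finset.prod_univ_sum, Fintype.piFinset_univ]
      refine Finset.sum_congr rfl fun s _ => ?_
      rw [ENNReal.toReal_prod, Finset.prod_mul_distrib]
    rw [this, Finset.mul_sum, Finset.sum_mul]
    refine Finset.sum_congr rfl fun s _ => ?_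
    ring
  · intro s
    exact ((allLp_mon β _ E).mul (allLp_mon β _ E')).integrable

end Pool.Agent.H78.SP
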