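import Pool.Agent.H78.SP.Bound

/-!
# Summation over cycles: first and second moments of the cycle polynomial
-/

open Finset MeasureTheory ProbabilityTheory

namespace Pool.Agent.H78.SP

variable {m n N : ℕ}

lemma pair_bound {β k : ℝ} (hβ : 0 ≤ β) (hk : 1 ≤ k) (hkn : k ≤ n) (p p' : Cyc m n N) :
    ∫ Y, mon (edges p) Y * mon (edges p') Y ∂(plantedLaw n N β k) ≤
      4 ^ (m + 2) * (KK β m * ov p p' / ((n : ℝ) ^ (2 * (m + 2)) * k)) +
        (if edges p = edges p' then 1 else 0) + (β / n) ^ (2 * (m + 2)) := by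
  have hk0 : 0 < k := by linarith
  have hn : (0 : ℝ) < n := by linarith
  have hov : 0 ≤ ov p p' := by unfold ov; positivity
  have hmain0 : 0 ≤ KK β m * ov p p' / ((n : ℝ) ^ (2 * (m + 2)) * k) := by
    have := KK_nonneg β m
    positivity
  rw [pair_planted hβ]
  calc _ = ∑ A ∈ (edges p ∩ edges p').powerset, term β k p p' A := rfl
    _ ≤ ∑ A ∈ (edges p ∩ edges p').powerset,
        (KK β m * ov p p' / ((n : ℝ) ^ (2 * (m + 2)) * k) +
        (if A = edges p ∧ A = edges p' then 1 else 0) +
        (if A = ∅ then (β / n) ^ (2 * (m + 2)) else 0)) :=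
        sum_le_sum fun A hA => term_bound hβ hk hkn (mem_powerset.mp hA)
    _ = ((edges p ∩ edges p').powerset.card : ℝ) *
          (KK β m * ov p p' / ((n : ℝ) ^ (2 * (m + 2)) * k)) +
        (∑ A ∈ (edges p ∩ edges p').powerset, if A = edges p ∧ A = edges p' then (1 : ℝ) else 0) +
        (β / n) ^ (2 * (m + 2)) := by
        rw [sum_add_distrib, sum_add_distrib, sum_const, nsmul_eq_mul]
        congr 1
        rw [sum_ite_eq' _ ∅, if_pos (empty_mem_powerset _)]
    _ ≤ _ := by
        gcongr ?_ + ?_ + _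
        · apply mul_le_mul_of_nonneg_right _ hmain0
          rw [card_powerset]
          push_cast
          have h1 : (edges p ∩ edges p').card ≤ 2 * (m + 2) :=
            (card_le_card inter_subset_left).trans (card_edges p).le
          calc (2 : ℝ) ^ (edges p ∩ edges p').card ≤ 2 ^ (2 * (m + 2)) :=
                pow_le_pow_right₀ (by norm_num) h1
            _ = 4 ^ (m + 2) := by rw [pow_mul]; norm_num
        · split_ifs with h
          · calc (∑ A ∈ (edges p ∩ edges p').powerset,
                  if A = edges p ∧ A = edges p' then (1 : ℝ) else 0)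
                ≤ ∑ A ∈ (edges p ∩ edges p').powerset, if A = edges p then (1 : ℝ) else 0 := by
                  refine sum_le_sum fun A _ => ?_
                  by_cases h1 : A = edges p
                  · rw [if_pos h1]; split_ifs <;> norm_num
                  · rw [if_neg h1, if_neg (fun hh => h1 hh.1)]
              _ ≤ 1 := by
                  rw [sum_ite_eq' _ (edges p)]
                  split_ifs <;> norm_num
          · rw [sum_eq_zero]
            intro A _
            rw [if_neg]
            rintro ⟨h1, h2⟩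
            exact h (h1.symm.trans h2)

/-- sums over embeddings of a power of the overlap -/
lemma sum_emb_pow {α : Type*} [Fintype α] [DecidableEq α] (l : ℕ) (S : Finset α) {c : ℝ}
    (hc : 0 ≤ c) :
    ∑ i : Fin l ↪ α, c ^ (S ∩ univ.map i).card ≤ (S.card * c + Fintype.card α) ^ l := by
  have h1 : ∀ i : Fin l ↪ α, c ^ (S ∩ univ.map i).card = ∏ t, (if i t ∈ S then c else 1) := by
    intro i
    rw [prod_ite, prod_const, prod_const_one, mul_one]
    congr 1
    rw [← card_map i]
    congr 1
    ext a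
    simp only [mem_inter, mem_map, mem_univ, true_and, mem_filter]
    constructor
    · rintro ⟨h, t, rfl⟩
      exact ⟨t, h, rfl⟩
    · rintro ⟨t, h, rfl⟩
      exact ⟨h, t, rfl⟩
  simp_rw [h1]
  calc ∑ i : Fin l ↪ α, ∏ t, (if i t ∈ S then c else 1)
      = ∑ i ∈ (univ : Finset (Fin l ↪ α)).map
            (⟨DFunLike.coe, DFunLike.coe_injective⟩ : (Fin l ↪ α) ↪ (Fin l → α)),
          ∏ t, (if i t ∈ S then c else 1) := by
        rw [sum_map]
        rfl
    _ ≤ ∑ i : Fin l → α, ∏ t, (if i t ∈ S then c else 1) := by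
        apply sum_le_sum_of_subset_of_nonneg (subset_univ _)
        intro i _ _
        refine prod_nonneg fun t _ => ?_
        split_ifs
        · exact hc
        · exact zero_le_one
    _ = (∑ a : α, if a ∈ S then c else 1) ^ l := by
        rw [Fintype.sum_pow]
    _ ≤ (S.card * c + Fintype.card α) ^ l := by
        apply pow_le_pow_left₀
        · refine sum_nonneg fun a _ => ?_
          split_ifs
          · exact hc
          · exact zero_le_one
        · rw [sum_ite, sum_const, sum_const, nsmul_eq_mul, nsmul_eq_mul, mul_one]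
          gcongr
          · rw [filter_mem_eq_inter, univ_inter]
          · exact card_le_univ _

lemma sum_ov (p : Cyc m n N) :
    ∑ p' : Cyc m n N, ov p p' ≤
      (((m + 2 : ℕ) : ℝ) * n + n) ^ (m + 2) * (((m + 2 : ℕ) : ℝ) * n + N) ^ (m + 2) := by
  rw [Fintype.sum_prod_type]
  unfold ov
  have e : ∑ i : Fin (m + 2) ↪ Fin n, ∑ j : Fin (m + 2) ↪ Fin N,
      (n : ℝ) ^ (rows p ∩ rows (i, j)).card * (n : ℝ) ^ (cols p ∩ cols (i, j)).card =
      (∑ i : Fin (m + 2) ↪ Fin n, (n : ℝ) ^ (rows p ∩ univ.map i).card) *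
        ∑ j : Fin (m + 2) ↪ Fin N, (n : ℝ) ^ (cols p ∩ univ.map j).card := by
    rw [sum_mul_sum]
    rfl
  rw [e]
  have h1 := sum_emb_pow (m + 2) (rows p) (c := (n : ℝ)) (by positivity)
  have h2 := sum_emb_pow (m + 2) (cols p) (c := (n : ℝ)) (by positivity)
  rw [card_rows, Fintype.card_fin] at h1
  rw [card_cols, Fintype.card_fin] at h2
  exact mul_le_mul h1 h2 (sum_nonneg fun _ _ => by positivity) (by positivity)

/-- the number of cycles -/
lemma card_cyc : (Fintype.card (Cyc m n N) : ℝ) =
    (n.descFactorial (m + 2) : ℝ) * (N.descFactorial (m + 2) : ℝ) := by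
  rw [Fintype.card_prod, Fintype.card_embedding_eq, Fintype.card_embedding_eq]
  simp

lemma sum_same : ∑ p : Cyc m n N, ∑ p' : Cyc m n N,
    (if edges p = edges p' then (1 : ℝ) else 0) ≤
      (2 * (m + 2) : ℕ) * (Fintype.card (Cyc m n N) : ℝ) := by
  calc _ ≤ ∑ _p : Cyc m n N, ((2 * (m + 2) : ℕ) : ℝ) := by
        refine sum_le_sum fun p _ => ?_
        rw [← sum_filter, sum_const, nsmul_eq_mul, mul_one]
        exact_mod_cast card_fiber p
    _ = _ := by
        rw [sum_const, nsmul_eq_mul, mul_comm]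
        rfl

/-- the cycle polynomial as a function -/
noncomputable def cyf (m n N : ℕ) (Y : Fin n × Fin N → ℝ) : ℝ :=
  ∑ p : Cyc m n N, mon (edges p) Y

lemma cyf_sq (Y : Fin n × Fin N → ℝ) : cyf m n N Y ^ 2 =
    ∑ p : Cyc m n N, ∑ p' : Cyc m n N, mon (edges p) Y * mon (edges p') Y := by
  unfold cyf
  rw [pow_two, sum_mul_sum]

/-! ### the null law -/

instance : IsProbabilityMeasure (nullLaw n N) := by
  unfold nullLaw
  infer_instance

lemma allLp_null (e : Fin n × Fin N) : AllLp (fun Y => Y e) (nullLaw n N) := by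
  have h1 : AllLp (fun y : ℝ => y) ((nullLaw n N).map (Function.eval e)) := by
    have : (nullLaw n N).map (Function.eval e) = g1 :=
      (measurePreserving_eval (fun _ : Fin n × Fin N => g1) e).map_eq
    rw [this]
    exact allLp_id_g1
  exact AllLp.of_map (f := fun y : ℝ => y) (measurable_pi_apply e) measurable_id h1

lemma allLp_mon_null (E : Finset (Fin n × Fin N)) : AllLp (mon E) (nullLaw n N) :=
  AllLp.prod fun e _ => allLp_null e

lemma pair_null (E E' : Finset (Fin n × Fin N)) :
    ∫ Y, mon E Y * mon E' Y ∂(nullLaw n N) = if E = E' then 1 else 0 := by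
  simp_rw [mon_mul_mon]
  unfold nullLaw
  rw [integral_fintype_prod_eq_prod (f := fun (e : Fin n × Fin N) (z : ℝ) => z ^ cnt E E' e)]
  split_ifs with h
  · subst h
    refine prod_eq_one fun e _ => ?_
    unfold cnt
    by_cases he : e ∈ E
    · simp only [he, if_true]
      exact gm_two
    · simp only [he, if_false]
      exact gm_zero
  · have : ∃ e, ¬ (e ∈ E ↔ e ∈ E') := by
      by_contra hcon
      push Not at hcon
      exact h (Finset.ext hcon)
    obtain ⟨e, he⟩ := this
    apply prod_eq_zero (mem_univ e)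
    have hc : cnt E E' e = 1 := by
      unfold cnt
      by_cases h1 : e ∈ E <;> by_cases h2 : e ∈ E' <;> simp [h1, h2] at he ⊢
    rw [hc]
    exact gm_one

lemma edges_ne_empty (p : Cyc m n N) : edges p ≠ ∅ := by
  intro h
  have := card_edges p
  rw [h, card_empty] at this
  omega

lemma mean_null : ∫ Y, cyf m n N Y ∂(nullLaw n N) = 0 := by
  unfold cyf
  rw [integral_finsetSum _ fun p _ => (allLp_mon_null (edges p)).integrable]
  refine sum_eq_zero fun p _ => ?_
  have := pair_null (edges p) ∅
  rw [if_neg (edges_ne_empty p)] at this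
  simpa [mon] using this

lemma allLp_cyf_null : AllLp (cyf m n N) (nullLaw n N) :=
  AllLp.sum fun p _ => allLp_mon_null (edges p)

lemma var_null : Var[cyf m n N; nullLaw n N] ≤
    (2 * (m + 2) : ℕ) * (Fintype.card (Cyc m n N) : ℝ) := by
  refine (variance_le_expectation_sq allLp_cyf_null.memLp_two.aestronglyMeasurable).trans ?_
  simp only [Pi.pow_apply]
  simp_rw [cyf_sq]
  rw [integral_finsetSum _ fun p _ => integrable_finsetSum _ fun p' _ =>
    ((allLp_mon_null (edges p)).mul (allLp_mon_null (edges p'))).integrable]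
  simp_rw [integral_finsetSum _ fun p' _ =>
    ((allLp_mon_null (edges _)).mul (allLp_mon_null (edges p'))).integrable]
  simp_rw [pair_null]
  exact sum_same

/-! ### the planted law -/

lemma integrable_planted {β k : ℝ} {F : (Fin n × Fin N → ℝ) → ℝ}
    (hF : ∀ x : Fin n → ℝ, Integrable F (condLaw n N β x)) :
    Integrable F (plantedLaw n N β k) := by
  unfold plantedLaw
  rw [integrable_finsetSum_measure]
  intro s _
  exact (hF _).smul_measure (pw_ne_top n k s)

lemma isProb_planted {β k : ℝ} (hk : 0 < k) (hkn : k ≤ n) :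
    IsProbabilityMeasure (plantedLaw n N β k) := by
  constructor
  unfold plantedLaw
  rw [Measure.finsetSum_apply]
  simp only [Measure.smul_apply, measure_univ, smul_eq_mul, mul_one]
  have h1 : ∑ s : Fin n → SignType, ∏ i, signWeight n k (s i) =
      ∏ _i : Fin n, ∑ s : SignType, signWeight n k s := by
    rw [prod_univ_sum, Fintype.piFinset_univ]
  have h2 : ∑ s : SignType, signWeight n k s = 1 := by
    have h3 := xm_zero (n := n) hk hkn
    unfold xm at h3
    simp only [pow_zero, mul_one] at h3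
    rw [← ENNReal.toReal_sum (fun s _ => signWeight_ne_top n k s)] at h3
    rw [← ENNReal.toReal_eq_one_iff]
    exact h3
  rw [h1, h2, prod_const_one]

lemma mean_planted {β k : ℝ} (hβ : 0 ≤ β) (hk : 1 ≤ k) (hkn : k ≤ n) :
    ∫ Y, cyf m n N Y ∂(plantedLaw n N β k) =
      (Fintype.card (Cyc m n N) : ℝ) * (β / n) ^ (m + 2) := by
  have hk0 : 0 < k := by linarith
  unfold cyf
  rw [integral_finsetSum _ fun p _ =>
    integrable_planted fun x => (allLp_mon β x (edges p)).integrable]
  rw [← nsmul_eq_mul, ← card_univ (α := Cyc m n N), ← sum_const]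
  refine sum_congr rfl fun p _ => ?_
  have := pair_planted hβ k (edges p) ∅ (N := N)
  have e1 : ∀ Y, mon (edges p) Y * mon ∅ Y = mon (edges p) Y := fun Y => by simp [mon]
  simp_rw [e1] at this
  rw [this, inter_empty, powerset_empty, sum_singleton]
  simp only [sdiff_empty, card_empty, add_zero]
  have hr : ∀ v, rdeg (∅ : Finset (Fin n × Fin N)) v = 0 := fun v => by simp [rdeg]
  have hc : ∀ v, cdeg (∅ : Finset (Fin n × Fin N)) v = 0 := fun v => by simp [cdeg]
  simp_rw [hr, hc, add_zero, rdeg_edges, cdeg_edges]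
  have h1 : ∏ v : Fin n, xm n k (if v ∈ rows p then 2 else 0) = (1 / (n : ℝ)) ^ (m + 2) := by
    have : ∀ v : Fin n, xm n k (if v ∈ rows p then 2 else 0) =
        if v ∈ rows p then 1 / (n : ℝ) else 1 := by
      intro v
      split_ifs
      · exact xm_two hk0 hkn
      · exact xm_zero hk0 hkn
    simp_rw [this]
    rw [prod_ite_mem, univ_inter, prod_const, card_rows]
  have h2 : ∏ w : Fin N, gm (if w ∈ cols p then 2 else 0) = 1 := by
    refine prod_eq_one fun w _ => ?_
    split_ifs
    · exact gm_two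
    · exact gm_zero
  rw [h1, h2, card_edges, mul_one, pow_mul, Real.sq_sqrt hβ, ← mul_pow]
  congr 1
  ring

lemma sq_planted {β k : ℝ} (hβ : 0 ≤ β) (hk : 1 ≤ k) (hkn : k ≤ n) :
    ∫ Y, cyf m n N Y ^ 2 ∂(plantedLaw n N β k) ≤
      4 ^ (m + 2) * (KK β m / ((n : ℝ) ^ (2 * (m + 2)) * k)) *
        ((Fintype.card (Cyc m n N) : ℝ) *
        ((((m + 2 : ℕ) : ℝ) * n + n) ^ (m + 2) * (((m + 2 : ℕ) : ℝ) * n + N) ^ (m + 2))) +
      (2 * (m + 2) : ℕ) * (Fintype.card (Cyc m n N) : ℝ) +
      ((Fintype.card (Cyc m n N) : ℝ) * (β / n) ^ (m + 2)) ^ 2 := by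
  have hk0 : 0 < k := by linarith
  have hn : (0 : ℝ) < n := by linarith
  simp_rw [cyf_sq]
  rw [integral_finsetSum _ fun p _ => integrable_finsetSum _ fun p' _ =>
    integrable_planted fun x => ((allLp_mon β x (edges p)).mul (allLp_mon β x (edges p'))).integrable]
  simp_rw [integral_finsetSum _ fun p' _ => integrable_planted fun x =>
    ((allLp_mon β x (edges _)).mul (allLp_mon β x (edges p'))).integrable]
  calc _ ≤ ∑ p : Cyc m n N, ∑ p' : Cyc m n N,
        (4 ^ (m + 2) * (KK β m * ov p p' / ((n : ℝ) ^ (2 * (m + 2)) * k)) +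
        (if edges p = edges p' then 1 else 0) + (β / n) ^ (2 * (m + 2))) :=
        sum_le_sum fun p _ => sum_le_sum fun p' _ => pair_bound hβ hk hkn p p'
    _ = 4 ^ (m + 2) * (KK β m / ((n : ℝ) ^ (2 * (m + 2)) * k)) *
          (∑ p : Cyc m n N, ∑ p' : Cyc m n N, ov p p') +
        (∑ p : Cyc m n N, ∑ p' : Cyc m n N, (if edges p = edges p' then (1 : ℝ) else 0)) +
        ((Fintype.card (Cyc m n N) : ℝ) * (β / n) ^ (m + 2)) ^ 2 := by
        simp_rw [sum_add_distrib]
        congr 1
        · congr 1
          simp_rw [mul_sum]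
          refine sum_congr rfl fun p _ => sum_congr rfl fun p' _ => ?_
          ring
        · simp only [sum_const, nsmul_eq_mul, card_univ]
          ring
    _ ≤ _ := by
        have h1 : ∑ p : Cyc m n N, ∑ p' : Cyc m n N, ov p p' ≤
            (Fintype.card (Cyc m n N) : ℝ) *
            ((((m + 2 : ℕ) : ℝ) * n + n) ^ (m + 2) * (((m + 2 : ℕ) : ℝ) * n + N) ^ (m + 2)) := by
          calc _ ≤ ∑ _p : Cyc m n N,
              ((((m + 2 : ℕ) : ℝ) * n + n) ^ (m + 2) * (((m + 2 : ℕ) : ℝ) * n + N) ^ (m + 2)) :=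
                sum_le_sum fun p _ => sum_ov p
            _ = _ := by
                rw [sum_const, nsmul_eq_mul]
                rfl
        have h2 : 0 ≤ 4 ^ (m + 2) * (KK β m / ((n : ℝ) ^ (2 * (m + 2)) * k)) := by
          have := KK_nonneg β m
          positivity
        exact add_le_add (add_le_add (mul_le_mul_of_nonneg_left h1 h2) sum_same) le_rfl

lemma allLp_cyf_cond (β : ℝ) (x : Fin n → ℝ) : AllLp (cyf m n N) (condLaw n N β x) :=
  AllLp.sum fun p _ => allLp_mon β x (edges p)

lemma measurable_cyf : Measurable (cyf m n N) := by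
  unfold cyf
  exact Finset.measurable_sum _ fun p _ => measurable_mon (edges p)

lemma memLp_cyf_planted (β k : ℝ) : MemLp (cyf m n N) 2 (plantedLaw n N β k) := by
  rw [memLp_two_iff_integrable_sq measurable_cyf.aestronglyMeasurable]
  exact integrable_planted fun x => ((allLp_cyf_cond β x).pow 2).integrable

lemma var_planted {β k : ℝ} (hβ : 0 ≤ β) (hk : 1 ≤ k) (hkn : k ≤ n) :
    Var[cyf m n N; plantedLaw n N β k] ≤
      4 ^ (m + 2) * (KK β m / ((n : ℝ) ^ (2 * (m + 2)) * k)) *
        ((Fintype.card (Cyc m n N) : ℝ) *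
        ((((m + 2 : ℕ) : ℝ) * n + n) ^ (m + 2) * (((m + 2 : ℕ) : ℝ) * n + N) ^ (m + 2))) +
      (2 * (m + 2) : ℕ) * (Fintype.card (Cyc m n N) : ℝ) := by
  have : IsProbabilityMeasure (plantedLaw n N β k) := isProb_planted (by linarith) hkn
  rw [variance_eq_sub (memLp_cyf_planted β k), mean_planted hβ hk hkn]
  have := sq_planted (m := m) (N := N) hβ hk hkn
  simp only [Pi.pow_apply]
  linarith

end Pool.Agent.H78.SP
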